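import Pool.Agent.Helper80.Kl.Far
import Pool.Agent.Kleitman.CalcB

/-! # Kleitman, section 8: bridge between `Ctx` and the chain functionals of a whole family -/

set_option autoImplicit false

namespace Pool.Agent.Helper80.Kl

open Finset Kleitman

variable {n : ℕ}

/-- the main lemma for one scale (statement) -/
def ML (n : ℕ) : Prop := ∀ (c : Ctx n) (K : ℝ), 10 ≤ K →
    c.X ≤ (51 / 10) * ((c.a : ℝ) * K / n) * c.γ +
      10 ^ 12 * ((c.a : ℝ) * c.R / (n : ℝ) ^ 2 + c.p * c.P0 + c.P0 / K +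
        (c.a : ℝ) / (n * K ^ 2) + c.κ1)

lemma D_eq_Dop (f : Finset (Fin n) → ℝ) (S : Finset (Fin n)) : Kleitman.D f S = Dop f S := rfl

lemma mass_eq_sumP (g : Finset (Fin n) → ℝ) : mass g = ∑ C, P C * g C := by
  unfold mass P
  rw [Fintype.card_fin]
  exact sum_congr rfl fun C _ => by ring

lemma mass_ind (F : Finset (Finset (Fin n))) (p : Finset (Fin n) → Prop)
    (hp : ∀ C, p C → C ∈ F) (g : Finset (Fin n) → ℝ) [DecidablePred p] :
    mass (fun C => ind p C * g C) = ∑ C ∈ F, P C * (if p C then g C else 0) := by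
  rw [mass_eq_sumP]
  symm
  apply sum_subset_zero_on_sdiff (subset_univ F)
  · intro C hC
    rw [mem_sdiff] at hC
    have : ¬ p C := fun h => hC.2 (hp C h)
    rw [ind_of_not this]; ring
  · intro C _
    by_cases h : p C
    · rw [if_pos h, ind_of h]; ring
    · rw [if_neg h, ind_of_not h]; ring

/-- the part of `F` in the window of half-width `R` -/
def win (F : Finset (Finset (Fin n))) (R : ℕ) : Finset (Finset (Fin n)) :=
  F.filter fun A => n / 2 < #A + R ∧ #A ≤ n / 2 + R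

lemma q_eq (c : Ctx n) (S : Finset (Fin n)) : c.q S = 1 - cdn c.F (fun _ => 1) S := by
  unfold Ctx.q
  induction S using dn_induction with
  | hempty =>
    by_cases h : (∅ : Finset (Fin n)) ∈ c.F
    · rw [dnR_of_stop h, cdn_mem h]; ring
    · rw [dnR_empty h, cdn_notMem h, Dop_empty]; ring
  | step S hS ih =>
    by_cases h : S ∈ c.F
    · rw [dnR_of_stop h, cdn_mem h]; ring
    · rw [dnR_step h hS, cdn_notMem h, D_congr (g := fun T => 1 - cdn c.F (fun _ => 1) T) ih,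
        D_sub, D_const hS]
      rfl

lemma cdn_le_Dn (F : Finset (Finset (Fin n))) (φ : Finset (Fin n) → ℝ)
    (g : Finset (Fin n) → ℝ) (h : ∀ A ∈ F, φ A ≤ g A) (hg : ∀ S, 0 ≤ g S) (S : Finset (Fin n)) :
    cdn F φ S ≤ Dn g S := by
  induction S using down_induction with
  | h S ih =>
    have hD : 0 ≤ Kleitman.D (Dn g) S := D_nonneg fun v _ => Dn_nonneg fun A _ => hg A
    rw [Dn_rec]
    by_cases hS : S ∈ F
    · rw [cdn_mem hS]
      linarith [h S hS]
    · rw [cdn_notMem hS]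
      have : Dop (cdn F φ) S ≤ Kleitman.D (Dn g) S := Dop_mono ih
      linarith [hg S]

/-- one-scale inequality for the chain functionals of the whole family -/
theorem scale_ineq (hML : ML n) (hn : 10 ^ 60 ≤ n) {F : Finset (Finset (Fin n))}
    (hF : ∀ A ∈ F, ∀ B ∈ F, ∀ C ∈ F, A ≠ B → A ≠ C → B ≠ C → A ∪ B ≠ C)
    {s R : ℕ} (hs : 12 ≤ s) (hR : 2 * 2 ^ s ≤ R) (hR' : (5 * R) ^ 5 ≤ n ^ 3) {K : ℝ} (hK : 10 ≤ K) :
    ∑ C ∈ F, P C * Xc F s C ≤
      (51 / 10) * ((2 : ℝ) ^ s * K / n) * ∑ A ∈ F, P A * (if Gs s A then 1 else 0)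
      + 10 ^ 12 * ((2 : ℝ) ^ s * R / (n : ℝ) ^ 2
        + 5 * R / n * (1 - cdn (win F R) (fun _ => 1) univ)
        + (1 - cdn (win F R) (fun _ => 1) univ) / K + (2 : ℝ) ^ s / (n * K ^ 2)
        + ∑ C ∈ F, P C * (if (n / 2 < #C + R ∧ #C ≤ n / 2 + R) ∧ ¬ Bs s C
            then ((2 : ℝ) ^ s + dst C) / n else 0)) := by
  have h64 : 64 ∣ 2 ^ s := by
    have : (2 : ℕ) ^ 6 ∣ 2 ^ s := pow_dvd_pow 2 (by omega)
    simpa using this
  let c : Ctx n :=
    { F := win F R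
      a := 2 ^ s
      R := R
      n_large := hn
      a_large := Nat.pow_le_pow_right (by norm_num) hs
      a_dvd := h64
      R_large := hR
      R_small := hR'
      unionFree := fun A hA B hB C hC => hF A (mem_filter.1 hA).1 B (mem_filter.1 hB).1 C
        (mem_filter.1 hC).1
      win_lo := fun S hS => (mem_filter.1 hS).2.1
      win_hi := fun S hS => (mem_filter.1 hS).2.2 }
  have hpow : 0 < 2 ^ s := by positivity
  have hisG : ∀ A, c.isG A ↔ A ∈ F ∧ Gs s A := by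
    intro A
    show (A ∈ win F R ∧ n / 2 < #A + 2 * 2 ^ s ∧ #A + 2 ^ s ≤ n / 2) ↔ _
    unfold win Gs
    rw [mem_filter]
    constructor
    · rintro ⟨h1, h2, h3⟩; exact ⟨h1.1, h2, h3⟩
    · rintro ⟨h1, h2, h3⟩; exact ⟨⟨h1, by omega, by omega⟩, h2, h3⟩
  have hbd : ∀ C, c.bd C ↔ C ∈ F ∧ Bs s C := by
    intro C
    show (C ∈ win F R ∧ n / 2 ≤ #C + 2 ^ s / 64 ∧ #C ≤ n / 2 + 2 ^ s / 64) ↔ _
    unfold win Bs
    rw [mem_filter]
    constructor
    · rintro ⟨h1, h2, h3⟩; exact ⟨h1.1, h2, h3⟩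
    · rintro ⟨h1, h2, h3⟩; exact ⟨⟨h1, by omega, by omega⟩, h2, h3⟩
  have hnb : ∀ C, c.nb C ↔ C ∈ F ∧ (n / 2 < #C + R ∧ #C ≤ n / 2 + R) ∧ ¬ Bs s C := by
    intro C
    show (C ∈ win F R ∧ ¬ c.bd C) ↔ _
    rw [hbd]
    unfold win
    rw [mem_filter]
    tauto
  have hmain := hML c K hK
  have hγ : c.γ = ∑ A ∈ F, P A * (if Gs s A then 1 else 0) := by
    unfold Ctx.γ
    classical
    have h1 := mass_ind F c.isG (fun C hC => ((hisG C).1 hC).1) (fun _ => 1)
    simp only [mul_one] at h1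
    rw [h1]
    refine sum_congr rfl fun A hA => ?_
    congr 1
    by_cases h : Gs s A
    · rw [if_pos h, if_pos ((hisG A).2 ⟨hA, h⟩)]
    · rw [if_neg h, if_neg (fun h' => h ((hisG A).1 h').2)]
  have hκ : c.κ1 = ∑ C ∈ F, P C * (if (n / 2 < #C + R ∧ #C ≤ n / 2 + R) ∧ ¬ Bs s C
            then ((2 : ℝ) ^ s + dst C) / n else 0) := by
    unfold Ctx.κ1
    classical
    rw [mass_ind F c.nb (fun C hC => ((hnb C).1 hC).1)]
    refine sum_congr rfl fun C hC => ?_
    congr 1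
    have hd : Ctx.dist C = (dst C : ℝ) := by
      unfold Ctx.dist dst
      rcases le_total #C (n / 2) with h | h
      · rw [abs_of_nonpos (by
          have : (#C : ℝ) ≤ ((n / 2 : ℕ) : ℝ) := by exact_mod_cast h
          linarith), Nat.sub_eq_zero_of_le h, zero_add, Nat.cast_sub h]; ring
      · rw [abs_of_nonneg (by
          have : ((n / 2 : ℕ) : ℝ) ≤ (#C : ℝ) := by exact_mod_cast h
          linarith), Nat.sub_eq_zero_of_le h, add_zero, Nat.cast_sub h]
    by_cases h : (n / 2 < #C + R ∧ #C ≤ n / 2 + R) ∧ ¬ Bs s C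
    · rw [if_pos h, if_pos ((hnb C).2 ⟨hC, h⟩), hd]
      show (((2 ^ s : ℕ) : ℝ) + _) / _ = _
      push_cast; ring
    · rw [if_neg h, if_neg (fun h' => h ((hnb C).1 h').2)]
  have hP0 : c.P0 = 1 - cdn (win F R) (fun _ => 1) univ := q_eq c univ
  have hX : ∑ C ∈ F, P C * Xc F s C ≤ c.X := by
    unfold Ctx.X
    classical
    rw [mass_ind F c.bd (fun C hC => ((hbd C).1 hC).1)]
    refine sum_le_sum fun C hC => mul_le_mul_of_nonneg_left ?_ (P_pos C).le
    unfold Xc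
    by_cases h : Bs s C
    · rw [if_pos h, if_pos ((hbd C).2 ⟨hC, h⟩)]
      unfold Ctx.H
      rw [Dn_rec, D_eq_Dop]
      have h1 : 0 ≤ ind c.isG C := ind_nonneg _ _
      have h2 : Dop (cdn F fun A => if Gs s A then 1 else 0) C ≤ Dop (Dn (ind c.isG)) C := by
        refine Dop_mono fun y _ => cdn_le_Dn F _ _ ?_
          (fun S => ind_nonneg _ _) _
        intro A hA
        by_cases hG : Gs s A
        · rw [if_pos hG, ind_of ((hisG A).2 ⟨hA, hG⟩)]
        · rw [if_neg hG]; exact ind_nonneg _ _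
      linarith
    · rw [if_neg h, if_neg (fun h' => h ((hbd C).1 h').2)]
  rw [hγ, hκ, hP0] at hmain
  refine hX.trans (hmain.trans (le_of_eq ?_))
  show (51 / 10) * (((2 ^ s : ℕ) : ℝ) * K / n) * _ + 10 ^ 12 * (((2 ^ s : ℕ) : ℝ) * (R : ℝ) / (n : ℝ) ^ 2
    + (5 * (R : ℝ) / (n : ℝ)) * _ + _ + ((2 ^ s : ℕ) : ℝ) / (n * K ^ 2) + _) = _
  push_cast
  ring

end Pool.Agent.Helper80.Kl
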