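import Mathlib

/-! # Kleitman, section 8: numerical sums over the scales -/

set_option autoImplicit false

namespace Pool.Agent.Helper80.Kl

open Finset

lemma geo_up {r : ℝ} (hr : 2 ≤ r) (a b : ℕ) : ∑ s ∈ Ico a b, r ^ s ≤ r ^ b := by
  have h0 : ∑ s ∈ range b, r ^ s ≤ r ^ b := by
    induction b with
    | zero => simp
    | succ b ih =>
      rw [sum_range_succ, pow_succ]
      have : 0 < r ^ b := by positivity
      nlinarith
  refine le_trans (sum_le_sum_of_subset_of_nonneg ?_ fun _ _ _ => by positivity) h0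
  intro s hs
  rw [mem_Ico] at hs
  exact mem_range.2 hs.2

lemma geo_dn {r : ℝ} (hr : 2 ≤ r) (a b : ℕ) : ∑ s ∈ Ico a b, 1 / r ^ s ≤ 2 / r ^ a := by
  have hr0 : 0 < r := by linarith
  rcases le_total b a with h | h
  · rw [Ico_eq_empty_of_le h, sum_empty]; positivity
  · have key : ∑ s ∈ Ico a b, 1 / r ^ s ≤ 2 / r ^ a - 2 / r ^ b := by
      induction b, h using Nat.le_induction with
      | base => simp
      | succ b hb ih =>
        rw [sum_Ico_succ_top hb]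
        have e : 2 / r ^ b - 2 / r ^ (b + 1) - 1 / r ^ b = (1 / r ^ b) * (1 - 2 / r) := by
          rw [pow_succ]; field_simp; ring
        have h1 : 0 ≤ (1 / r ^ b) * (1 - 2 / r) := by
          apply mul_nonneg (by positivity)
          rw [sub_nonneg, div_le_one hr0]; exact hr
        linarith
    have : 0 < 2 / r ^ b := by positivity
    linarith

/-- sum of the powers of two below `x` -/
lemma sum_pow_lt (x b : ℕ) : ∑ s ∈ range b, (if 2 ^ s < x then 2 ^ s else 0) ≤ 2 * x := by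
  induction b with
  | zero => simp
  | succ b ih =>
    rw [sum_range_succ]
    by_cases h : 2 ^ b < x
    · rw [if_pos h]
      have h1 : ∑ s ∈ range b, (if 2 ^ s < x then 2 ^ s else 0) ≤ ∑ s ∈ range b, 2 ^ s := by
        refine sum_le_sum fun s _ => ?_
        split_ifs <;> simp
      have h2 : ∑ s ∈ range b, 2 ^ s < 2 ^ b := by
        induction b with
        | zero => simp
        | succ b ih' =>
          rw [sum_range_succ, pow_succ]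
          have h3 : ∑ s ∈ range b, 2 ^ s < 2 ^ b := by
            clear ih' ih h h1
            induction b with
            | zero => simp
            | succ b ih => rw [sum_range_succ, pow_succ]; omega
          omega
      omega
    · rw [if_neg h]; omega

/-- the interpolation parameter -/
noncomputable def tt (n : ℕ) (D : ℝ) (s : ℕ) : ℝ := 4 * (n : ℝ) ^ 2 / 16 ^ s + 2 * D * 2 ^ s / n

lemma L1 (s2 : ℕ) : (1 : ℝ) ≤ 2 ^ (s2 + 1) := one_le_pow₀ (by norm_num)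

lemma lin_le_pow (k : ℕ) (hk : 60 ≤ k) : (k + 1) * 10000000000000000 ≤ 2 ^ k := by
  induction k, hk using Nat.le_induction with
  | base => norm_num
  | succ k hk ih => rw [pow_succ]; linarith

section

variable {n s0 s1 s2 : ℕ} {D : ℝ}

/-- hypotheses on the parameters -/
structure Par (n s0 s1 s2 : ℕ) (D : ℝ) : Prop where
  hn : (0 : ℝ) < n
  hs0 : 60 ≤ s0
  h01 : s0 ≤ s1
  h12 : s1 ≤ s2
  h4l : (4 : ℝ) ^ s1 ≤ 4 * n
  h4u : 4 * (n : ℝ) < 4 ^ (s1 + 1)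
  hD : 1 ≤ D
  hL : 10 ^ 20 * D * (2 ^ (s2 + 1)) ^ 3 ≤ (n : ℝ) ^ 2
  hLn : (2 : ℝ) ^ (s2 + 1) ≤ n

variable (h : Par n s0 s1 s2 D)

include h


lemma Par.A1 : ∑ s ∈ Ico s0 (s1 + 1), (10 : ℝ) ^ 12 * ((2 : ℝ) ^ s * 2 ^ (s1 + 1) / (n : ℝ) ^ 2
    + 10 ^ 6 / (n * 2 ^ s)) ≤ (10 : ℝ) ^ 19 / n := by
  have hn := h.hn
  have e : ∀ s ∈ Ico s0 (s1 + 1), (10 : ℝ) ^ 12 * ((2 : ℝ) ^ s * 2 ^ (s1 + 1) / (n : ℝ) ^ 2
    + 10 ^ 6 / (n * 2 ^ s)) = 10 ^ 12 * 2 ^ (s1 + 1) / (n : ℝ) ^ 2 * 2 ^ s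
      + 10 ^ 18 / n * (1 / 2 ^ s) := by
    intro s _
    field_simp
  rw [sum_congr rfl e, sum_add_distrib, ← mul_sum, ← mul_sum]
  have h1 := geo_up (r := 2) le_rfl s0 (s1 + 1)
  have h2 := geo_dn (r := 2) le_rfl s0 (s1 + 1)
  have h3 : (2 : ℝ) / 2 ^ s0 ≤ 1 := by
    rw [div_le_one (by positivity)]
    calc (2 : ℝ) = 2 ^ 1 := by norm_num
      _ ≤ 2 ^ s0 := pow_le_pow_right₀ (by norm_num) (by have := h.hs0; omega)
  have h4 : (2 : ℝ) ^ (s1 + 1) * 2 ^ (s1 + 1) ≤ 16 * n := by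
    have := h.h4l
    rw [← mul_pow, pow_succ]
    norm_num
    linarith
  have h5 : 10 ^ 12 * (2 : ℝ) ^ (s1 + 1) / (n : ℝ) ^ 2 * ∑ s ∈ Ico s0 (s1 + 1), (2 : ℝ) ^ s
      ≤ 10 ^ 12 * 16 / n := by
    calc _ ≤ 10 ^ 12 * (2 : ℝ) ^ (s1 + 1) / (n : ℝ) ^ 2 * 2 ^ (s1 + 1) :=
          mul_le_mul_of_nonneg_left h1 (by positivity)
      _ = 10 ^ 12 / (n : ℝ) ^ 2 * ((2 : ℝ) ^ (s1 + 1) * 2 ^ (s1 + 1)) := by ring
      _ ≤ 10 ^ 12 / (n : ℝ) ^ 2 * (16 * n) := mul_le_mul_of_nonneg_left h4 (by positivity)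
      _ = 10 ^ 12 * 16 / n := by field_simp
  have h6 : 10 ^ 18 / (n : ℝ) * ∑ s ∈ Ico s0 (s1 + 1), 1 / (2 : ℝ) ^ s ≤ 10 ^ 18 / n * 1 :=
    mul_le_mul_of_nonneg_left (h2.trans h3) (by positivity)
  have h7 : 10 ^ 12 * 16 / (n : ℝ) + 10 ^ 18 / n * 1 ≤ 10 ^ 19 / n := by
    rw [mul_one, ← add_div]
    exact div_le_div_of_nonneg_right (by norm_num) hn.le
  linarith

lemma Par.A2 : ∑ s ∈ Ico s0 (s1 + 1), (10 : ℝ) ^ 12 * (5 * (2 : ℝ) ^ (s1 + 1) / n + 1000 / 2 ^ s)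
    ≤ 1 / 4 := by
  have hn := h.hn
  have e : ∀ s ∈ Ico s0 (s1 + 1), (10 : ℝ) ^ 12 * (5 * (2 : ℝ) ^ (s1 + 1) / n + 1000 / 2 ^ s)
      = 10 ^ 12 * (5 * (2 : ℝ) ^ (s1 + 1) / n) + 10 ^ 15 * (1 / 2 ^ s) := by
    intro s _; ring
  rw [sum_congr rfl e, sum_add_distrib, sum_const, nsmul_eq_mul, Nat.card_Ico, ← mul_sum]
  have h2 := geo_dn (r := 2) le_rfl s0 (s1 + 1)
  have h60 : (2 : ℝ) ^ 60 ≤ 2 ^ s0 := pow_le_pow_right₀ (by norm_num) h.hs0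
  have h3 : 10 ^ 15 * ((2 : ℝ) / 2 ^ s0) ≤ 1 / 8 := by
    rw [← mul_div_assoc, div_le_div_iff₀ (by positivity) (by norm_num)]
    norm_num at h60 ⊢
    linarith
  have h4 : (s1 : ℝ) + 1 ≤ 2 ^ s1 / 10 ^ 16 := by
    have hs1 : 60 ≤ s1 := h.hs0.trans h.h01
    have key : (((s1 + 1) * 10000000000000000 : ℕ) : ℝ) ≤ ((2 ^ s1 : ℕ) : ℝ) :=
      Nat.cast_le.2 (lin_le_pow s1 hs1)
    push_cast at key
    rw [le_div_iff₀ (by norm_num)]
    norm_num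
    linarith
  have h5 : ((s1 + 1 - s0 : ℕ) : ℝ) ≤ (s1 : ℝ) + 1 := by
    have : (s1 + 1 - s0 : ℕ) ≤ s1 + 1 := Nat.sub_le _ _
    exact_mod_cast this
  have h6 : ((s1 + 1 - s0 : ℕ) : ℝ) * (10 ^ 12 * (5 * (2 : ℝ) ^ (s1 + 1) / n)) ≤ 1 / 8 := by
    calc _ ≤ (2 ^ s1 / 10 ^ 16) * (10 ^ 12 * (5 * (2 : ℝ) ^ (s1 + 1) / n)) :=
          mul_le_mul_of_nonneg_right (h5.trans h4) (by positivity)
      _ = (1 / 1000) * (4 ^ s1 / n) := by
          rw [show (4 : ℝ) ^ s1 = 2 ^ s1 * 2 ^ s1 by rw [← mul_pow]; norm_num, pow_succ]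
          field_simp
          ring
      _ ≤ (1 / 1000) * (4 * n / n) := by
          refine mul_le_mul_of_nonneg_left (div_le_div_of_nonneg_right h.h4l hn.le) (by norm_num)
      _ ≤ 1 / 8 := by
          rw [mul_div_assoc, div_self hn.ne']; norm_num
  have h7 : 10 ^ 15 * ∑ s ∈ Ico s0 (s1 + 1), 1 / (2 : ℝ) ^ s ≤ 10 ^ 15 * (2 / 2 ^ s0) :=
    mul_le_mul_of_nonneg_left h2 (by norm_num)
  linarith

lemma Par.tt_nonneg (s : ℕ) : 0 ≤ tt n D s := by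
  have := h.hD
  have := h.hn
  unfold tt
  positivity

/-- the weight part of the parameter -/
lemma Par.w_le {s : ℕ} (hs : s1 + 1 ≤ s) : 4 * (n : ℝ) ^ 2 / 16 ^ s ≤ 1 / 4 := by
  have hn := h.hn
  have h1 : (16 : ℝ) ^ (s1 + 1) ≤ 16 ^ s := pow_le_pow_right₀ (by norm_num) hs
  have h2 : (4 * (n : ℝ)) ^ 2 ≤ (4 ^ (s1 + 1)) ^ 2 := by
    apply pow_le_pow_left₀ (by positivity) h.h4u.le
  have h3 : ((4 : ℝ) ^ (s1 + 1)) ^ 2 = 16 ^ (s1 + 1) := by rw [← pow_mul, mul_comm, pow_mul]; norm_num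
  rw [div_le_div_iff₀ (by positivity) (by norm_num)]
  nlinarith

lemma Par.DL : 10 ^ 20 * D * 2 ^ (s2 + 1) ≤ (n : ℝ) := by
  have hn := h.hn
  have hL := h.hL
  have hD := h.hD
  have h1 : (4 : ℝ) ^ (s1 + 1) ≤ (2 ^ (s2 + 1)) ^ 2 := by
    calc (4 : ℝ) ^ (s1 + 1) ≤ 4 ^ (s2 + 1) :=
          pow_le_pow_right₀ (by norm_num) (by have := h.h12; omega)
      _ = (2 ^ (s2 + 1)) ^ 2 := by rw [← pow_mul, mul_comm, pow_mul]; norm_num
  have h2 := h.h4u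
  set L : ℝ := 2 ^ (s2 + 1)
  have hL0 : 0 < L := by positivity
  have h3 : (10 ^ 20 * D * L) * n ≤ (n : ℝ) * n := by
    calc (10 ^ 20 * D * L) * n ≤ (10 ^ 20 * D * L) * L ^ 2 :=
          mul_le_mul_of_nonneg_left (by linarith) (by positivity)
      _ = 10 ^ 20 * D * L ^ 3 := by ring
      _ ≤ (n : ℝ) ^ 2 := hL
      _ = n * n := by ring
  exact le_of_mul_le_mul_right h3 hn

lemma Par.A5 : ∑ s ∈ Ico (s1 + 1) (s2 + 1), tt n D s ≤ 1 := by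
  have hn := h.hn
  have hD := h.hD
  have e : ∀ s ∈ Ico (s1 + 1) (s2 + 1), tt n D s
      = 4 * (n : ℝ) ^ 2 * (1 / 16 ^ s) + 2 * D / n * 2 ^ s := by
    intro s _; unfold tt; ring
  rw [sum_congr rfl e, sum_add_distrib, ← mul_sum, ← mul_sum]
  have h1 := geo_dn (r := 16) (by norm_num) (s1 + 1) (s2 + 1)
  have h2 := geo_up (r := 2) le_rfl (s1 + 1) (s2 + 1)
  have h3 := h.w_le (s := s1 + 1) le_rfl
  have h4 : 4 * (n : ℝ) ^ 2 * ∑ s ∈ Ico (s1 + 1) (s2 + 1), 1 / (16 : ℝ) ^ s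
      ≤ 2 * (4 * (n : ℝ) ^ 2 / 16 ^ (s1 + 1)) := by
    calc _ ≤ 4 * (n : ℝ) ^ 2 * (2 / 16 ^ (s1 + 1)) := mul_le_mul_of_nonneg_left h1 (by positivity)
      _ = _ := by ring
  have h5 : 2 * D / n * ∑ s ∈ Ico (s1 + 1) (s2 + 1), (2 : ℝ) ^ s ≤ 1 / 4 := by
    calc _ ≤ 2 * D / n * 2 ^ (s2 + 1) := mul_le_mul_of_nonneg_left h2 (by positivity)
      _ = 2 * D * 2 ^ (s2 + 1) / n := by ring
      _ ≤ 1 / 4 := by
        rw [div_le_div_iff₀ hn (by norm_num)]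
        have := h.DL
        nlinarith [this, L1 s2]
  linarith

lemma Par.A6 {s : ℕ} (hs : s1 + 1 ≤ s) (hs' : s ≤ s2) : tt n D s ≤ 1 / 2 := by
  have hn := h.hn
  have hD := h.hD
  have h1 := h.w_le hs
  have h2 : 2 * D * 2 ^ s / n ≤ 1 / 4 := by
    rw [div_le_div_iff₀ hn (by norm_num)]
    have h3 := h.DL
    have h4 : (2 : ℝ) ^ s ≤ 2 ^ (s2 + 1) := pow_le_pow_right₀ (by norm_num) (by omega)
    have h5 : D * 2 ^ s ≤ D * 2 ^ (s2 + 1) := mul_le_mul_of_nonneg_left h4 (by linarith)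
    have h6 : 0 ≤ D * 2 ^ s := by positivity
    linarith
  unfold tt
  linarith

lemma Par.A3 : ∑ s ∈ Ico (s1 + 1) (s2 + 1), (10 : ℝ) ^ 12 * tt n D s *
    (2 * 4 ^ s / (n : ℝ) ^ 2 + 10 ^ 4 * 8 ^ s / (n : ℝ) ^ 3) ≤ (10 : ℝ) ^ 18 / n := by
  have hn := h.hn
  have hD := h.hD
  have e : ∀ s ∈ Ico (s1 + 1) (s2 + 1), (10 : ℝ) ^ 12 * tt n D s *
    (2 * 4 ^ s / (n : ℝ) ^ 2 + 10 ^ 4 * 8 ^ s / (n : ℝ) ^ 3)
      = 10 ^ 12 * (8 * (1 / 4 ^ s) + (4 * D / (n : ℝ) ^ 3) * 8 ^ s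
        + (4 * 10 ^ 4 / n) * (1 / 2 ^ s) + (2 * 10 ^ 4 * D / (n : ℝ) ^ 4) * 16 ^ s) := by
    intro s _
    unfold tt
    have e4 : (4 : ℝ) ^ s = 2 ^ s * 2 ^ s := by rw [← mul_pow]; norm_num
    have e8 : (8 : ℝ) ^ s = 2 ^ s * 2 ^ s * 2 ^ s := by rw [← mul_pow, ← mul_pow]; norm_num
    have e16 : (16 : ℝ) ^ s = 2 ^ s * 2 ^ s * 2 ^ s * 2 ^ s := by
      rw [← mul_pow, ← mul_pow, ← mul_pow]; norm_num
    have h2s : (0 : ℝ) < 2 ^ s := by positivity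
    rw [e4, e8, e16]
    generalize (2 : ℝ) ^ s = x at h2s
    field_simp
    ring
  rw [sum_congr rfl e, ← mul_sum, sum_add_distrib, sum_add_distrib, sum_add_distrib, ← mul_sum,
    ← mul_sum, ← mul_sum, ← mul_sum]
  have g1 := geo_dn (r := 4) (by norm_num) (s1 + 1) (s2 + 1)
  have g2 := geo_up (r := 8) (by norm_num) (s1 + 1) (s2 + 1)
  have g3 := geo_dn (r := 2) (by norm_num) (s1 + 1) (s2 + 1)
  have g4 := geo_up (r := 16) (by norm_num) (s1 + 1) (s2 + 1)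
  have b1 : 8 * ∑ s ∈ Ico (s1 + 1) (s2 + 1), 1 / (4 : ℝ) ^ s ≤ 4 / n := by
    calc _ ≤ 8 * (2 / (4 : ℝ) ^ (s1 + 1)) := mul_le_mul_of_nonneg_left g1 (by norm_num)
      _ = 16 / (4 : ℝ) ^ (s1 + 1) := by ring
      _ ≤ 16 / (4 * n) := div_le_div_of_nonneg_left (by norm_num) (by positivity) h.h4u.le
      _ = 4 / n := by field_simp; norm_num
  have hL := h.hL
  have b2 : (4 * D / (n : ℝ) ^ 3) * ∑ s ∈ Ico (s1 + 1) (s2 + 1), (8 : ℝ) ^ s ≤ 1 / n := by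
    calc _ ≤ (4 * D / (n : ℝ) ^ 3) * 8 ^ (s2 + 1) := mul_le_mul_of_nonneg_left g2 (by positivity)
      _ = (4 * D * (2 ^ (s2 + 1)) ^ 3) / (n : ℝ) ^ 3 := by
        rw [show (8 : ℝ) ^ (s2 + 1) = (2 ^ (s2 + 1)) ^ 3 by rw [← pow_mul, mul_comm, pow_mul]; norm_num]
        ring
      _ ≤ (n : ℝ) ^ 2 / (n : ℝ) ^ 3 := by
        refine div_le_div_of_nonneg_right ?_ (by positivity)
        have : 0 ≤ D * (2 ^ (s2 + 1)) ^ 3 := by positivity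
        linarith
      _ = 1 / n := by field_simp
  have b3 : (4 * 10 ^ 4 / (n : ℝ)) * ∑ s ∈ Ico (s1 + 1) (s2 + 1), 1 / (2 : ℝ) ^ s ≤ 40000 / n := by
    calc _ ≤ (4 * 10 ^ 4 / (n : ℝ)) * 1 := by
          refine mul_le_mul_of_nonneg_left (g3.trans ?_) (by positivity)
          rw [div_le_one (by positivity), pow_succ]
          have : (1 : ℝ) ≤ 2 ^ s1 := one_le_pow₀ (by norm_num)
          linarith
      _ = 40000 / n := by norm_num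
  have b4 : (2 * 10 ^ 4 * D / (n : ℝ) ^ 4) * ∑ s ∈ Ico (s1 + 1) (s2 + 1), (16 : ℝ) ^ s ≤ 1 / n := by
    calc _ ≤ (2 * 10 ^ 4 * D / (n : ℝ) ^ 4) * 16 ^ (s2 + 1) :=
          mul_le_mul_of_nonneg_left g4 (by positivity)
      _ = (2 * 10 ^ 4 * D * (2 ^ (s2 + 1)) ^ 3 * 2 ^ (s2 + 1)) / (n : ℝ) ^ 4 := by
        rw [show (16 : ℝ) ^ (s2 + 1) = (2 ^ (s2 + 1)) ^ 3 * 2 ^ (s2 + 1) by
          rw [← pow_succ, ← pow_mul, mul_comm, pow_mul]; norm_num]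
        ring
      _ ≤ ((n : ℝ) ^ 2 * n) / (n : ℝ) ^ 4 := by
        refine div_le_div_of_nonneg_right ?_ (by positivity)
        refine mul_le_mul ?_ h.hLn (by positivity) (by positivity)
        have : 0 ≤ D * (2 ^ (s2 + 1)) ^ 3 := by positivity
        linarith
      _ = 1 / n := by field_simp
  have b5 : (4 : ℝ) / n + 1 / n + 40000 / n + 1 / n ≤ 10 ^ 6 / n := by
    rw [← add_div, ← add_div, ← add_div]
    exact div_le_div_of_nonneg_right (by norm_num) hn.le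
  calc _ ≤ 10 ^ 12 * ((10 : ℝ) ^ 6 / n) :=
        mul_le_mul_of_nonneg_left (by linarith) (by norm_num)
    _ = 10 ^ 18 / n := by ring

lemma Par.A4 : ∑ s ∈ Ico (s1 + 1) (s2 + 1), (10 : ℝ) ^ 12 * tt n D s * (110 * 2 ^ s / n)
    ≤ 1 / 4 := by
  have hn := h.hn
  have hD := h.hD
  have e : ∀ s ∈ Ico (s1 + 1) (s2 + 1), (10 : ℝ) ^ 12 * tt n D s * (110 * 2 ^ s / n)
      = 10 ^ 12 * ((440 * n) * (1 / 8 ^ s) + (220 * D / (n : ℝ) ^ 2) * 4 ^ s) := by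
    intro s _
    unfold tt
    have e4 : (4 : ℝ) ^ s = 2 ^ s * 2 ^ s := by rw [← mul_pow]; norm_num
    have e8 : (8 : ℝ) ^ s = 2 ^ s * 2 ^ s * 2 ^ s := by rw [← mul_pow, ← mul_pow]; norm_num
    have e16 : (16 : ℝ) ^ s = 2 ^ s * 2 ^ s * 2 ^ s * 2 ^ s := by
      rw [← mul_pow, ← mul_pow, ← mul_pow]; norm_num
    have h2s : (0 : ℝ) < 2 ^ s := by positivity
    rw [e4, e8, e16]
    generalize (2 : ℝ) ^ s = x at h2s
    field_simp
    ring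
  rw [sum_congr rfl e, ← mul_sum, sum_add_distrib, ← mul_sum, ← mul_sum]
  have g1 := geo_dn (r := 8) (by norm_num) (s1 + 1) (s2 + 1)
  have g2 := geo_up (r := 4) (by norm_num) (s1 + 1) (s2 + 1)
  have h60 : (2 : ℝ) ^ 60 ≤ 2 ^ (s1 + 1) :=
    pow_le_pow_right₀ (by norm_num) (by have := h.hs0; have := h.h01; omega)
  have b1 : (440 * n) * ∑ s ∈ Ico (s1 + 1) (s2 + 1), 1 / (8 : ℝ) ^ s ≤ 220 / 2 ^ 60 := by
    calc _ ≤ (440 * n) * (2 / (8 : ℝ) ^ (s1 + 1)) := mul_le_mul_of_nonneg_left g1 (by positivity)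
      _ = 880 * n / (4 ^ (s1 + 1) * 2 ^ (s1 + 1)) := by
        rw [← mul_pow]; norm_num; ring
      _ ≤ 880 * n / ((4 * n) * 2 ^ 60) := by
        refine div_le_div_of_nonneg_left (by positivity) (by positivity) ?_
        exact mul_le_mul h.h4u.le h60 (by positivity) (by positivity)
      _ = 220 / 2 ^ 60 := by field_simp; norm_num
  have b2 : (220 * D / (n : ℝ) ^ 2) * ∑ s ∈ Ico (s1 + 1) (s2 + 1), (4 : ℝ) ^ s ≤ 220 / 10 ^ 20 := by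
    calc _ ≤ (220 * D / (n : ℝ) ^ 2) * 4 ^ (s2 + 1) := mul_le_mul_of_nonneg_left g2 (by positivity)
      _ = 220 * (D * 2 ^ (s2 + 1) * 2 ^ (s2 + 1)) / (n : ℝ) ^ 2 := by
        rw [show (4 : ℝ) ^ (s2 + 1) = 2 ^ (s2 + 1) * 2 ^ (s2 + 1) by rw [← mul_pow]; norm_num]
        ring
      _ ≤ 220 * ((n / 10 ^ 20) * n) / (n : ℝ) ^ 2 := by
        refine div_le_div_of_nonneg_right (mul_le_mul_of_nonneg_left ?_ (by norm_num)) (by positivity)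
        refine mul_le_mul ?_ h.hLn (by positivity) (by positivity)
        rw [le_div_iff₀ (by norm_num)]
        have := h.DL
        linarith
      _ = 220 / 10 ^ 20 := by field_simp
  have b3 : (10 : ℝ) ^ 12 * (220 / 2 ^ 60 + 220 / 10 ^ 20) ≤ 1 / 4 := by norm_num
  calc _ ≤ 10 ^ 12 * ((220 : ℝ) / 2 ^ 60 + 220 / 10 ^ 20) :=
        mul_le_mul_of_nonneg_left (by linarith) (by norm_num)
    _ ≤ 1 / 4 := b3

end

end Pool.Agent.Helper80.Kl
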