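import Mathlib

set_option autoImplicit false

namespace Pool.Agent.Helper80.Kl

open Finset Real

/-- normalised binomial weight -/
noncomputable def wt (n k : ℕ) : ℝ := (n.choose k : ℝ) / (n.choose (n / 2) : ℝ)

lemma mid_pos (n : ℕ) : (0 : ℝ) < (n.choose (n / 2) : ℝ) := by
  exact_mod_cast Nat.choose_pos (Nat.div_le_self n 2)

lemma wt_nonneg (n k : ℕ) : 0 ≤ wt n k := by
  unfold wt; positivity

lemma wt_le_one (n k : ℕ) : wt n k ≤ 1 := by
  unfold wt
  rw [div_le_one (mid_pos n)]
  exact_mod_cast Nat.choose_le_middle k n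

lemma wt_mid (n : ℕ) : wt n (n / 2) = 1 := by
  unfold wt
  exact div_self (mid_pos n).ne'

/-- going down: ratio -/
lemma choose_down (n j : ℕ) (hj : j + 1 ≤ n / 2) :
    (n.choose (n / 2 - (j + 1)) : ℝ) * ((n : ℝ) - (n / 2 : ℕ) + j + 1)
      = (n.choose (n / 2 - j) : ℝ) * (((n / 2 : ℕ) : ℝ) - j) := by
  have h := Nat.choose_succ_right_eq n (n / 2 - (j + 1))
  have e1 : n / 2 - (j + 1) + 1 = n / 2 - j := by omega
  rw [e1] at h
  have h2 := congrArg (Nat.cast (R := ℝ)) h
  push_cast [Nat.cast_sub (show n / 2 - (j + 1) ≤ n by omega),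
    Nat.cast_sub (show j + 1 ≤ n / 2 by omega), Nat.cast_sub (show j ≤ n / 2 by omega)] at h2
  linarith

lemma wt_low (n : ℕ) : ∀ j : ℕ, j ≤ n / 2 → wt n (n / 2 - j) ≤ exp (-((j : ℝ) ^ 2 / n)) := by
  intro j
  induction j with
  | zero => intro _; simp [wt_mid]
  | succ j ih =>
    intro hj
    have ih := ih (by omega)
    have hn : (0 : ℝ) < n := by
      have : 0 < n := by omega
      exact_mod_cast this
    set h : ℝ := ((n / 2 : ℕ) : ℝ) with hh
    have hj' : (j : ℝ) + 1 ≤ h := by rw [hh]; exact_mod_cast hj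
    have h2 : h * 2 ≤ n := by rw [hh]; exact_mod_cast Nat.div_mul_le_self n 2
    have h3 : (n : ℝ) ≤ 2 * h + 1 := by
      have : n ≤ 2 * (n / 2) + 1 := by omega
      rw [hh]; exact_mod_cast this
    have hj0 : (0 : ℝ) ≤ j := Nat.cast_nonneg j
    have hden : (0 : ℝ) < (n : ℝ) - h + j + 1 := by linarith
    have hratio : wt n (n / 2 - (j + 1)) = wt n (n / 2 - j) * ((h - j) / ((n : ℝ) - h + j + 1)) := by
      unfold wt
      have hc := choose_down n j hj
      rw [← hh] at hc
      have hm := (mid_pos n).ne'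
      field_simp
      linarith
    have hr : (h - j) / ((n : ℝ) - h + j + 1) ≤ exp (-((2 * j + 1) / n)) := by
      have h4 : (h - j) / ((n : ℝ) - h + j + 1)
          ≤ -((2 * j + 1) / n) + 1 := by
        rw [div_le_iff₀ hden]
        have h5 : ((2 * (j : ℝ) + 1) / n) * ((n : ℝ) - h + j + 1) ≤ 2 * j + 1 := by
          rw [div_mul_eq_mul_div, div_le_iff₀ hn]
          apply mul_le_mul_of_nonneg_left _ (by positivity)
          linarith
        nlinarith
      exact h4.trans (add_one_le_exp _)
    rw [hratio]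
    calc wt n (n / 2 - j) * ((h - j) / ((n : ℝ) - h + j + 1))
        ≤ exp (-((j : ℝ) ^ 2 / n)) * exp (-((2 * j + 1) / n)) := by
          apply mul_le_mul ih hr
          · apply div_nonneg _ hden.le
            linarith
          · exact (exp_pos _).le
      _ = exp (-(((j + 1 : ℕ) : ℝ) ^ 2 / n)) := by
          rw [← exp_add]
          congr 1
          push_cast
          field_simp
          ring

/-- going up: ratio -/
lemma choose_up (n j : ℕ) (hj : n / 2 + j + 1 ≤ n) :
    (n.choose (n / 2 + (j + 1)) : ℝ) * (((n / 2 : ℕ) : ℝ) + j + 1)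
      = (n.choose (n / 2 + j) : ℝ) * ((n : ℝ) - (n / 2 : ℕ) - j) := by
  have h := Nat.choose_succ_right_eq n (n / 2 + j)
  have h2 := congrArg (Nat.cast (R := ℝ)) h
  push_cast [Nat.cast_sub (show n / 2 + j ≤ n by omega)] at h2
  rw [show n / 2 + (j + 1) = n / 2 + j + 1 by ring]
  push_cast
  linarith

lemma wt_high (n : ℕ) : ∀ j : ℕ, n / 2 + j ≤ n →
    wt n (n / 2 + j) ≤ exp (-((j : ℝ) * (j - 1) / n)) := by
  intro j
  induction j with
  | zero => intro _; simp [wt_mid]
  | succ j ih =>
    intro hj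
    have ih := ih (by omega)
    have hn : (0 : ℝ) < n := by
      have : 0 < n := by omega
      exact_mod_cast this
    set h : ℝ := ((n / 2 : ℕ) : ℝ) with hh
    have h2 : h * 2 ≤ n := by rw [hh]; exact_mod_cast Nat.div_mul_le_self n 2
    have h3 : (n : ℝ) ≤ 2 * h + 1 := by
      have : n ≤ 2 * (n / 2) + 1 := by omega
      rw [hh]; exact_mod_cast this
    have h6 : h + j + 1 ≤ n := by
      rw [hh]; exact_mod_cast hj
    have hj0 : (0 : ℝ) ≤ j := Nat.cast_nonneg j
    have hh0 : (0 : ℝ) ≤ h := by rw [hh]; positivity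
    have hden : (0 : ℝ) < h + j + 1 := by linarith
    have hratio : wt n (n / 2 + (j + 1)) = wt n (n / 2 + j) * (((n : ℝ) - h - j) / (h + j + 1)) := by
      unfold wt
      have hc := choose_up n j (by omega)
      rw [← hh] at hc
      have hm := (mid_pos n).ne'
      field_simp
      linarith
    have hr : ((n : ℝ) - h - j) / (h + j + 1) ≤ exp (-((2 * j) / n)) := by
      have h4 : ((n : ℝ) - h - j) / (h + j + 1) ≤ -((2 * j) / n) + 1 := by
        rw [div_le_iff₀ hden]
        have h5 : ((2 * (j : ℝ)) / n) * (h + j + 1) ≤ 2 * j := by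
          rw [div_mul_eq_mul_div, div_le_iff₀ hn]
          apply mul_le_mul_of_nonneg_left _ (by positivity)
          linarith
        nlinarith
      exact h4.trans (add_one_le_exp _)
    rw [hratio]
    calc wt n (n / 2 + j) * (((n : ℝ) - h - j) / (h + j + 1))
        ≤ exp (-((j : ℝ) * (j - 1) / n)) * exp (-((2 * j) / n)) := by
          apply mul_le_mul ih hr
          · apply div_nonneg _ hden.le
            linarith
          · exact (exp_pos _).le
      _ = exp (-(((j + 1 : ℕ) : ℝ) * (((j + 1 : ℕ) : ℝ) - 1) / n)) := by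
          rw [← exp_add]
          congr 1
          push_cast
          field_simp
          ring

/-- `1 - exp (-x) ≥ min x 1 / 2` for `x ≥ 0`. -/
lemma one_sub_exp_neg_ge {x : ℝ} (hx : 0 ≤ x) : min x 1 / 2 ≤ 1 - exp (-x) := by
  have h1 : exp (-x) ≤ 1 / (1 + x) := by
    rw [exp_neg, ← one_div]
    apply one_div_le_one_div_of_le (by linarith)
    linarith [add_one_le_exp x]
  have h2 : 1 - 1 / (1 + x) = x / (1 + x) := by field_simp; ring
  have h3 : min x 1 / 2 ≤ x / (1 + x) := by
    rw [div_le_div_iff₀ (by norm_num) (by linarith)]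
    rcases le_total x 1 with h | h
    · rw [min_eq_left h]; nlinarith
    · rw [min_eq_right h]; linarith
  linarith

/-- the penalty of a level at distance `j` below the middle -/
lemma penalty_low (n j : ℕ) (hj : j ≤ n / 2) :
    min ((j : ℝ) ^ 2 / n) 1 / 2 ≤ 1 - wt n (n / 2 - j) := by
  have h1 := wt_low n j hj
  have h2 := one_sub_exp_neg_ge (x := (j : ℝ) ^ 2 / n) (by positivity)
  linarith

/-- the penalty of a level at distance `j ≥ 2` above the middle -/
lemma penalty_high (n j : ℕ) (hj : n / 2 + j ≤ n) :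
    min ((j : ℝ) * (j - 1) / n) 1 / 2 ≤ 1 - wt n (n / 2 + j) := by
  have h1 := wt_high n j hj
  have h2 := one_sub_exp_neg_ge (x := (j : ℝ) * (j - 1) / n) (by
    rcases Nat.eq_zero_or_pos j with h | h
    · subst h; simp
    · have : (1 : ℝ) ≤ j := by exact_mod_cast h
      apply div_nonneg (mul_nonneg (by positivity) (by linarith)) (by positivity))
  linarith

end Pool.Agent.Helper80.Kl
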