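import Pool.Agent.Helper80.Kl.Scales
import Pool.Agent.Helper80.Kl.NumA
import Pool.Agent.Helper80.Kl.Weights

/-! # Kleitman, section 8: the coefficient inequality -/

set_option autoImplicit false

namespace Pool.Agent.Helper80.Kl

open Finset Kleitman

variable {n : ℕ}

lemma Gs_unique {s s' : ℕ} {C : Finset (Fin n)} (h : Gs s C) (h' : Gs s' C) : s = s' := by
  unfold Gs at h h'
  rcases lt_trichotomy s s' with hlt | heq | hgt
  · have : 2 ^ (s + 1) ≤ 2 ^ s' := Nat.pow_le_pow_right (by norm_num) hlt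
    rw [pow_succ] at this
    omega
  · exact heq
  · have : 2 ^ (s' + 1) ≤ 2 ^ s := Nat.pow_le_pow_right (by norm_num) hgt
    rw [pow_succ] at this
    omega

lemma sum_Gs_le {I : Finset ℕ} {c : ℕ → ℝ} {B : ℝ} {C : Finset (Fin n)} (hB : 0 ≤ B)
    (h : ∀ s ∈ I, Gs s C → c s ≤ B) : ∑ s ∈ I, (if Gs s C then c s else 0) ≤ B := by
  by_cases hex : ∃ s ∈ I, Gs s C
  · obtain ⟨s, hs, hG⟩ := hex
    rw [sum_eq_single_of_mem s hs, if_pos hG]
    · exact h s hs hG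
    · intro s' _ hne
      rw [if_neg]
      intro hG'
      exact hne (Gs_unique hG' hG)
  · push Not at hex
    rw [sum_eq_zero]
    · exact hB
    · intro s hs
      rw [if_neg (hex s hs)]

lemma pow_lt_of_not_Bs {s : ℕ} (hs : 6 ≤ s) {C : Finset (Fin n)} (h : ¬ Bs s C) :
    2 ^ s < 64 * dst C := by
  have h64 : (2 : ℕ) ^ 6 ∣ 2 ^ s := pow_dvd_pow 2 hs
  obtain ⟨k, hk⟩ := h64
  unfold Bs at h
  unfold dst
  rw [hk] at h ⊢
  norm_num at h ⊢
  omega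

lemma kc_le_deep {s R : ℕ} (hs : 6 ≤ s) (C : Finset (Fin n)) : kc R s C ≤ 65 * dst C / n := by
  unfold kc
  split_ifs with h
  · have h1 := pow_lt_of_not_Bs hs h.2
    have h2 : ((2 ^ s : ℕ) : ℝ) ≤ ((64 * dst C : ℕ) : ℝ) := Nat.cast_le.2 h1.le
    push_cast at h2
    refine div_le_div_of_nonneg_right ?_ (by positivity)
    linarith
  · positivity

lemma kc_sum_in {s0 s1 R : ℕ} (hs : 6 ≤ s0) (C : Finset (Fin n)) :
    ∑ s ∈ Ico s0 (s1 + 1), kc R s C ≤ (128 * dst C + 128 * (dst C : ℝ) ^ 2 / 2 ^ s0) / n := by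
  have h1 : ∀ s ∈ Ico s0 (s1 + 1), kc R s C
      ≤ (1 + (dst C : ℝ) / 2 ^ s0) / n * ((if 2 ^ s < 64 * dst C then 2 ^ s else 0 : ℕ) : ℝ) := by
    intro s hs'
    rw [mem_Ico] at hs'
    unfold kc
    by_cases h : (n / 2 < #C + R ∧ #C ≤ n / 2 + R) ∧ ¬ Bs s C
    · have hlt := pow_lt_of_not_Bs (hs.trans hs'.1) h.2
      rw [if_pos h, if_pos hlt]
      push_cast
      rw [div_mul_eq_mul_div]
      refine div_le_div_of_nonneg_right ?_ (by positivity)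
      have h2 : (2 : ℝ) ^ s0 ≤ 2 ^ s := pow_le_pow_right₀ (by norm_num) hs'.1
      have h3 : (dst C : ℝ) ≤ dst C / 2 ^ s0 * 2 ^ s := by
        rw [div_mul_eq_mul_div, le_div_iff₀ (by positivity)]
        exact mul_le_mul_of_nonneg_left h2 (by positivity)
      linarith
    · rw [if_neg h]; positivity
  refine (sum_le_sum h1).trans ?_
  rw [← mul_sum]
  have h2 : ∑ s ∈ Ico s0 (s1 + 1), ((if 2 ^ s < 64 * dst C then 2 ^ s else 0 : ℕ) : ℝ)
      ≤ 128 * dst C := by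
    have h3 := sum_pow_lt (64 * dst C) (s1 + 1)
    have h4 : ∑ s ∈ Ico s0 (s1 + 1), (if 2 ^ s < 64 * dst C then 2 ^ s else 0)
        ≤ ∑ s ∈ range (s1 + 1), (if 2 ^ s < 64 * dst C then 2 ^ s else 0) := by
      refine sum_le_sum_of_subset ?_
      intro s hs'
      rw [mem_Ico] at hs'
      exact mem_range.2 hs'.2
    have h5 : ((∑ s ∈ Ico s0 (s1 + 1), (if 2 ^ s < 64 * dst C then 2 ^ s else 0) : ℕ) : ℝ)
        ≤ ((2 * (64 * dst C) : ℕ) : ℝ) := Nat.cast_le.2 (h4.trans h3)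
    push_cast at h5 ⊢
    linarith
  calc _ ≤ (1 + (dst C : ℝ) / 2 ^ s0) / n * (128 * dst C) :=
        mul_le_mul_of_nonneg_left h2 (by positivity)
    _ = _ := by ring

/-- the total coefficient of a member -/
noncomputable def coef (F : Finset (Finset (Fin n))) (s0 s1 s2 : ℕ) (D : ℝ)
    (C : Finset (Fin n)) : ℝ :=
  (jn s0 C : ℝ) / #C
  + ∑ s ∈ Ico s0 (s1 + 1), ((51 / 10) * ((2 : ℝ) ^ s * (2 ^ s / 1000) / n) *
        (if Gs s C then 1 else 0) + 10 ^ 12 * kc (2 ^ (s1 + 1)) s C)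
  + ∑ s ∈ Ico (s1 + 1) (s2 + 1),
      ((if Gs s C then (1 - tt n D s) * (1 - gA F C) + 51 / 1000 * tt n D s else 0)
        + 10 ^ 12 * tt n D s * kc (2 ^ (s + 1)) s C)
  + 1 / 2 * hh F s1 s2 C

lemma jn_le {s0 : ℕ} {C : Finset (Fin n)} (hn : (0 : ℝ) < n) (hsz : (n : ℝ) / 4 ≤ #C) :
    (jn s0 C : ℝ) / #C ≤ (516 * dst C + 8 * 2 ^ s0) / n := by
  have hC : (0 : ℝ) < #C := by linarith
  unfold jn
  push_cast
  rw [div_le_div_iff₀ hC hn]
  have h1 : (0 : ℝ) ≤ 129 * dst C + 2 * 2 ^ s0 := by positivity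
  nlinarith

lemma deep_kc_sum {s0 s1 s2 : ℕ} {D : ℝ} (h : Par n s0 s1 s2 D) (C : Finset (Fin n)) :
    ∑ s ∈ Ico (s1 + 1) (s2 + 1), (10 : ℝ) ^ 12 * tt n D s * kc (2 ^ (s + 1)) s C
      ≤ 65 * 10 ^ 12 * dst C / n := by
  have hn := h.hn
  calc ∑ s ∈ Ico (s1 + 1) (s2 + 1), (10 : ℝ) ^ 12 * tt n D s * kc (2 ^ (s + 1)) s C
      ≤ ∑ s ∈ Ico (s1 + 1) (s2 + 1), (10 : ℝ) ^ 12 * (65 * dst C / n) * tt n D s := by
        refine sum_le_sum fun s hs => ?_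
        rw [mem_Ico] at hs
        have h1 := kc_le_deep (s := s) (R := 2 ^ (s + 1))
          (by have := h.hs0; have := h.h01; omega) C
        have h2 := h.tt_nonneg s
        calc (10 : ℝ) ^ 12 * tt n D s * kc (2 ^ (s + 1)) s C
            ≤ (10 : ℝ) ^ 12 * tt n D s * (65 * dst C / n) :=
              mul_le_mul_of_nonneg_left h1 (by positivity)
          _ = _ := by ring
    _ = (10 : ℝ) ^ 12 * (65 * dst C / n) * ∑ s ∈ Ico (s1 + 1) (s2 + 1), tt n D s := by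
        rw [mul_sum]
    _ ≤ (10 : ℝ) ^ 12 * (65 * dst C / n) * 1 :=
        mul_le_mul_of_nonneg_left h.A5 (by positivity)
    _ = _ := by ring

lemma in_sum_le {s0 s1 : ℕ} (hs0 : 6 ≤ s0) {C : Finset (Fin n)} :
    ∑ s ∈ Ico s0 (s1 + 1), ((51 / 10) * ((2 : ℝ) ^ s * (2 ^ s / 1000) / n) *
        (if Gs s C then 1 else 0) + 10 ^ 12 * kc (2 ^ (s1 + 1)) s C)
      ≤ 51 / 10000 * (dst C : ℝ) ^ 2 / n
        + 10 ^ 12 * ((128 * dst C + 128 * (dst C : ℝ) ^ 2 / 2 ^ s0) / n) := by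
  rw [sum_add_distrib, ← mul_sum]
  have h1 := kc_sum_in (s0 := s0) (s1 := s1) (R := 2 ^ (s1 + 1)) hs0 C
  have h2 : ∑ s ∈ Ico s0 (s1 + 1), (51 / 10) * ((2 : ℝ) ^ s * (2 ^ s / 1000) / n) *
        (if Gs s C then 1 else 0) ≤ 51 / 10000 * (dst C : ℝ) ^ 2 / n := by
    have e : ∀ s ∈ Ico s0 (s1 + 1), (51 / 10) * ((2 : ℝ) ^ s * (2 ^ s / 1000) / n) *
        (if Gs s C then 1 else 0)
        = if Gs s C then (51 / 10) * ((2 : ℝ) ^ s * (2 ^ s / 1000) / n) else 0 := by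
      intro s _
      split_ifs <;> ring
    rw [sum_congr rfl e]
    refine sum_Gs_le (by positivity) fun s _ hG => ?_
    have h3 : 2 ^ s ≤ dst C := by unfold Gs at hG; unfold dst; omega
    have h4 : (2 : ℝ) ^ s ≤ dst C := by exact_mod_cast h3
    have h5 : (2 : ℝ) ^ s * 2 ^ s ≤ (dst C : ℝ) ^ 2 := by
      rw [sq]; exact mul_le_mul h4 h4 (by positivity) (by positivity)
    calc (51 / 10) * ((2 : ℝ) ^ s * (2 ^ s / 1000) / n)
        = 51 / 10000 * ((2 : ℝ) ^ s * 2 ^ s) / n := by ring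
      _ ≤ _ := by
        refine div_le_div_of_nonneg_right ?_ (by positivity)
        linarith
  linarith [mul_le_mul_of_nonneg_left h1 (show (0 : ℝ) ≤ 10 ^ 12 by norm_num)]

/-- the quadratic absorption -/
lemma absorb {d A nn q : ℝ} (hA : 2 ^ 60 ≤ A) (hn : 0 < nn)
    (hq : (d ^ 2 - d) / (32 * nn) ≤ q) :
    (516 * d + 8 * A) / nn + (51 / 10000 * d ^ 2 / nn
        + 10 ^ 12 * ((128 * d + 128 * d ^ 2 / A) / nn)) + 65 * 10 ^ 12 * d / nn
      ≤ q + (8 * A + 10 ^ 30) / nn := by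
  have hA0 : 0 < A := lt_of_lt_of_le (by norm_num) hA
  have h1 : 128 * d ^ 2 / A ≤ d ^ 2 / 10 ^ 15 := by
    rw [div_le_div_iff₀ hA0 (by norm_num)]
    have h2 : 128 * 10 ^ 15 ≤ A := le_trans (by norm_num) hA
    nlinarith [sq_nonneg d]
  have h3 : (516 * d + 8 * A) / nn + (51 / 10000 * d ^ 2 / nn
        + 10 ^ 12 * ((128 * d + 128 * d ^ 2 / A) / nn)) + 65 * 10 ^ 12 * d / nn
      = (516 * d + 8 * A + 51 / 10000 * d ^ 2 + 10 ^ 12 * (128 * d + 128 * d ^ 2 / A)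
        + 65 * 10 ^ 12 * d) / nn := by
    field_simp
    ring
  rw [h3]
  have h4 : 516 * d + 8 * A + 51 / 10000 * d ^ 2 + 10 ^ 12 * (128 * d + 128 * d ^ 2 / A)
        + 65 * 10 ^ 12 * d ≤ (d ^ 2 - d) / 32 + (8 * A + 10 ^ 30) := by
    nlinarith [sq_nonneg (d - 10 ^ 16)]
  calc _ ≤ ((d ^ 2 - d) / 32 + (8 * A + 10 ^ 30)) / nn := div_le_div_of_nonneg_right h4 hn.le
    _ = (d ^ 2 - d) / (32 * nn) + (8 * A + 10 ^ 30) / nn := by field_simp
    _ ≤ _ := by linarith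

/-- no `G` for members above the middle or closer than the scale -/
lemma not_Gs {s : ℕ} {C : Finset (Fin n)} (h : n / 2 < #C + 2 ^ s) : ¬ Gs s C := by
  unfold Gs; omega

lemma hh_in {F : Finset (Finset (Fin n))} {s1 s2 : ℕ} {C : Finset (Fin n)}
    (h1 : n / 2 < #C + 2 ^ (s1 + 1)) (h2 : #C ≤ n / 2 + 2 ^ (s1 + 1)) : hh F s1 s2 C = 0 := by
  unfold hh
  rw [if_neg (by omega), add_zero]
  refine sum_eq_zero fun s hs => ?_
  rw [mem_Ico] at hs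
  rw [if_neg]
  apply not_Gs
  have : 2 ^ (s1 + 1) ≤ 2 ^ s := Nat.pow_le_pow_right (by norm_num) hs.1
  omega

lemma coef_in {F : Finset (Finset (Fin n))} {s0 s1 s2 : ℕ} {D : ℝ} (h : Par n s0 s1 s2 D)
    {C : Finset (Fin n)} (hsz : (n : ℝ) / 4 ≤ #C) {q : ℝ}
    (h1 : n / 2 < #C + 2 ^ (s1 + 1)) (h2 : #C ≤ n / 2 + 2 ^ (s1 + 1))
    (hq : ((dst C : ℝ) ^ 2 - dst C) / (32 * n) ≤ q) :
    coef F s0 s1 s2 D C ≤ q + (8 * 2 ^ s0 + 10 ^ 30) / n := by
  have hn := h.hn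
  unfold coef
  rw [hh_in h1 h2, mul_zero, add_zero]
  have e1 : ∑ s ∈ Ico (s1 + 1) (s2 + 1),
      (if Gs s C then (1 - tt n D s) * (1 - gA F C) + 51 / 1000 * tt n D s else 0) = 0 := by
    refine sum_eq_zero fun s hs => ?_
    rw [mem_Ico] at hs
    rw [if_neg]
    apply not_Gs
    have : 2 ^ (s1 + 1) ≤ 2 ^ s := Nat.pow_le_pow_right (by norm_num) hs.1
    omega
  have h60 : (2 : ℝ) ^ 60 ≤ 2 ^ s0 := pow_le_pow_right₀ (by norm_num) h.hs0
  have a1 := jn_le (s0 := s0) hn hsz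
  have a2 := in_sum_le (s0 := s0) (s1 := s1) (C := C) (by have := h.hs0; omega)
  have a3 := deep_kc_sum h C
  have a4 := absorb (d := dst C) (A := 2 ^ s0) (nn := n) (q := q) h60 hn hq
  have e2 : ∑ s ∈ Ico (s1 + 1) (s2 + 1),
      ((if Gs s C then (1 - tt n D s) * (1 - gA F C) + 51 / 1000 * tt n D s else 0)
        + 10 ^ 12 * tt n D s * kc (2 ^ (s + 1)) s C)
      = ∑ s ∈ Ico (s1 + 1) (s2 + 1), (10 : ℝ) ^ 12 * tt n D s * kc (2 ^ (s + 1)) s C := by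
    rw [sum_add_distrib, e1, zero_add]
  rw [e2]
  linarith

lemma coef_high {F : Finset (Finset (Fin n))} {s0 s1 s2 : ℕ} {D : ℝ} (h : Par n s0 s1 s2 D)
    (hD : 10 ^ 15 ≤ D)
    {C : Finset (Fin n)} (hsz : (n : ℝ) / 4 ≤ #C) (h1 : n / 2 + 2 ^ (s1 + 1) < #C)
    (h2 : #C ≤ n / 2 + 2 ^ (s2 + 1)) :
    coef F s0 s1 s2 D C ≤ 3 / 4 := by
  have hn := h.hn
  have hG : ∀ s, ¬ Gs s C := fun s => not_Gs (by
    have := Nat.two_pow_pos s; have := Nat.two_pow_pos (s1 + 1); omega)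
  have e0 : hh F s1 s2 C = 1 := by
    unfold hh
    rw [if_pos h1, sum_eq_zero, zero_add]
    intro s _
    rw [if_neg (hG s)]
  have e1 : ∑ s ∈ Ico s0 (s1 + 1), ((51 / 10) * ((2 : ℝ) ^ s * (2 ^ s / 1000) / n) *
        (if Gs s C then 1 else 0) + 10 ^ 12 * kc (2 ^ (s1 + 1)) s C) = 0 := by
    refine sum_eq_zero fun s _ => ?_
    rw [if_neg (hG s)]
    unfold kc
    rw [if_neg]
    · ring
    · rintro ⟨⟨_, h3⟩, _⟩
      omega
  have e2 : ∑ s ∈ Ico (s1 + 1) (s2 + 1),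
      ((if Gs s C then (1 - tt n D s) * (1 - gA F C) + 51 / 1000 * tt n D s else 0)
        + 10 ^ 12 * tt n D s * kc (2 ^ (s + 1)) s C)
      = ∑ s ∈ Ico (s1 + 1) (s2 + 1), (10 : ℝ) ^ 12 * tt n D s * kc (2 ^ (s + 1)) s C := by
    refine sum_congr rfl fun s _ => ?_
    rw [if_neg (hG s), zero_add]
  have a1 := jn_le (s0 := s0) hn hsz
  have a3 := deep_kc_sum h C
  have hA : (2 : ℝ) ^ s0 ≤ dst C := by
    have : 2 ^ s0 ≤ 2 ^ (s1 + 1) := Nat.pow_le_pow_right (by norm_num) (by have := h.h01; omega)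
    have h3 : 2 ^ s0 ≤ dst C := by unfold dst; omega
    exact_mod_cast h3
  have hdL : (dst C : ℝ) ≤ 2 ^ (s2 + 1) := by
    have h3 : dst C ≤ 2 ^ (s2 + 1) := by
      have := Nat.two_pow_pos (s1 + 1)
      unfold dst; omega
    exact_mod_cast h3
  have hDL := h.DL
  have h5 : (516 * (dst C : ℝ) + 8 * 2 ^ s0) / n + 65 * 10 ^ 12 * dst C / n ≤ 1 / 4 := by
    rw [← add_div, div_le_div_iff₀ hn (by norm_num)]
    have : 10 ^ 20 * 10 ^ 15 * (2 : ℝ) ^ (s2 + 1) ≤ 10 ^ 20 * D * 2 ^ (s2 + 1) := by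
      apply mul_le_mul_of_nonneg_right _ (by positivity)
      linarith
    nlinarith [L1 s2]
  unfold coef
  rw [e0, e1, e2]
  linarith

/-- `e^{-x} ≤ 2 / x^2` -/
lemma exp_neg_le_sq {x : ℝ} (hx : 0 < x) : Real.exp (-x) ≤ 2 / x ^ 2 := by
  have h1 : x ^ 2 / 2 ≤ Real.exp x := by
    have := Real.quadratic_le_exp_of_nonneg hx.le
    linarith
  rw [Real.exp_neg, ← one_div, div_le_div_iff₀ (Real.exp_pos x) (by positivity)]
  linarith

lemma coef_deep {F : Finset (Finset (Fin n))} {s0 s1 s2 : ℕ} {D : ℝ} (h : Par n s0 s1 s2 D)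
    (hD : 10 ^ 15 ≤ D)
    {C : Finset (Fin n)} (hsz : (n : ℝ) / 4 ≤ #C) (h1 : #C + 2 ^ (s1 + 1) ≤ n / 2)
    (h2 : n / 2 < #C + 2 ^ (s2 + 1)) {q : ℝ}
    (hq : 1 - q ≤ Real.exp (-((dst C : ℝ) ^ 2 / n))) (hq' : 1 / 2 ≤ q) :
    coef F s0 s1 s2 D C ≤ q := by
  have hn := h.hn
  have hp1 := Nat.two_pow_pos (s1 + 1)
  have hlow : ∀ s ∈ Ico s0 (s1 + 1), ¬ Gs s C := by
    intro s hs hG
    rw [mem_Ico] at hs
    have : 2 ^ (s + 1) ≤ 2 ^ (s1 + 1) := Nat.pow_le_pow_right (by norm_num) (by omega)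
    rw [pow_succ] at this
    unfold Gs at hG
    omega
  have e1 : ∑ s ∈ Ico s0 (s1 + 1), ((51 / 10) * ((2 : ℝ) ^ s * (2 ^ s / 1000) / n) *
        (if Gs s C then 1 else 0) + 10 ^ 12 * kc (2 ^ (s1 + 1)) s C) = 0 := by
    refine sum_eq_zero fun s hs => ?_
    rw [if_neg (hlow s hs)]
    unfold kc
    rw [if_neg]
    · ring
    · rintro ⟨⟨h3, _⟩, _⟩
      omega
  have hA : (2 : ℝ) ^ s0 ≤ dst C := by
    have : 2 ^ s0 ≤ 2 ^ (s1 + 1) := Nat.pow_le_pow_right (by norm_num) (by have := h.h01; omega)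
    have h3 : 2 ^ s0 ≤ dst C := by unfold dst; omega
    exact_mod_cast h3
  have hdL : (dst C : ℝ) ≤ 2 ^ (s2 + 1) := by
    have h3 : dst C ≤ 2 ^ (s2 + 1) := by unfold dst; omega
    exact_mod_cast h3
  have hDL := h.DL
  set X : ℝ := (516 * (dst C : ℝ) + 8 * 2 ^ s0) / n + 65 * 10 ^ 12 * dst C / n with hX
  have hXle : X ≤ 66 * 10 ^ 12 * dst C / n := by
    rw [hX, ← add_div]
    refine div_le_div_of_nonneg_right ?_ hn.le
    linarith
  have h5 : X ≤ 1 / 4 := by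
    refine hXle.trans ?_
    rw [div_le_div_iff₀ hn (by norm_num)]
    have : 10 ^ 20 * 10 ^ 15 * (2 : ℝ) ^ (s2 + 1) ≤ 10 ^ 20 * D * 2 ^ (s2 + 1) := by
      apply mul_le_mul_of_nonneg_right _ (by positivity)
      linarith
    nlinarith [L1 s2]
  have hmain : ∑ s ∈ Ico (s1 + 1) (s2 + 1), (if Gs s C then
      ((1 - tt n D s) * (1 - gA F C) + 51 / 1000 * tt n D s + 1 / 2 * gA F C) else 0) ≤ q - X := by
    refine sum_Gs_le (by linarith) fun s hs hG => ?_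
    rw [mem_Ico] at hs
    have t1 := h.A6 (s := s) hs.1 (by omega)
    have t0 := h.tt_nonneg s
    have g0 := gA_nonneg F C
    have g1 := gA_le_one F C
    have hd1 : (2 : ℝ) ^ s ≤ dst C := by
      have h3 : 2 ^ s ≤ dst C := by unfold Gs at hG; unfold dst; omega
      exact_mod_cast h3
    have hd2 : (dst C : ℝ) ≤ 2 * 2 ^ s := by
      have h3 : dst C ≤ 2 * 2 ^ s := by
        have := Nat.two_pow_pos s
        unfold Gs at hG; unfold dst; omega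
      exact_mod_cast h3
    have h2s : (0 : ℝ) < 2 ^ s := by positivity
    have hd0 : (0 : ℝ) < dst C := lt_of_lt_of_le h2s hd1
    have hW : 1 - q ≤ 2 * (n : ℝ) ^ 2 / 16 ^ s := by
      refine hq.trans ((exp_neg_le_sq (by positivity)).trans ?_)
      rw [div_pow, ← pow_mul, div_div_eq_mul_div]
      refine div_le_div_of_nonneg_left (by positivity) (by positivity) ?_
      calc (16 : ℝ) ^ s = (2 ^ s) ^ 4 := by rw [← pow_mul, mul_comm, pow_mul]; norm_num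
        _ ≤ (dst C : ℝ) ^ (2 * 2) := pow_le_pow_left₀ h2s.le hd1 4
    have hX2 : X ≤ 132 * 10 ^ 12 * 2 ^ s / n := by
      refine hXle.trans (div_le_div_of_nonneg_right ?_ hn.le)
      linarith
    have hDs : 132 * 10 ^ 12 * (2 : ℝ) ^ s / n ≤ D * 2 ^ s / n := by
      refine div_le_div_of_nonneg_right (mul_le_mul_of_nonneg_right ?_ h2s.le) hn.le
      linarith
    have ht : tt n D s = 2 * (2 * (n : ℝ) ^ 2 / 16 ^ s) + 2 * (D * 2 ^ s / n) := by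
      unfold tt; ring
    have hW0 : 0 ≤ 2 * (n : ℝ) ^ 2 / 16 ^ s := by positivity
    have hD0 : 0 ≤ D * 2 ^ s / n := by
      have := h.hD
      positivity
    have hmid : (1 - tt n D s) * (1 - gA F C) + 1 / 2 * gA F C ≤ 1 - tt n D s := by
      nlinarith
    linarith
  have e2 : ∑ s ∈ Ico (s1 + 1) (s2 + 1),
      ((if Gs s C then (1 - tt n D s) * (1 - gA F C) + 51 / 1000 * tt n D s else 0)
        + 10 ^ 12 * tt n D s * kc (2 ^ (s + 1)) s C) + 1 / 2 * hh F s1 s2 C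
      = ∑ s ∈ Ico (s1 + 1) (s2 + 1), (if Gs s C then
      ((1 - tt n D s) * (1 - gA F C) + 51 / 1000 * tt n D s + 1 / 2 * gA F C) else 0)
       + ∑ s ∈ Ico (s1 + 1) (s2 + 1), (10 : ℝ) ^ 12 * tt n D s * kc (2 ^ (s + 1)) s C := by
    unfold hh
    rw [if_neg (by omega), add_zero, mul_sum, ← sum_add_distrib, ← sum_add_distrib]
    refine sum_congr rfl fun s _ => ?_
    split_ifs <;> ring
  have a1 := jn_le (s0 := s0) hn hsz
  have a3 := deep_kc_sum h C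
  unfold coef
  rw [e1]
  linarith

end Pool.Agent.Helper80.Kl
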