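import Pool.Agent.Helper80.Kl.Near

/-! # Kleitman, section 8: splitting the topmost hit below a member into near and far -/

set_option autoImplicit false

namespace Pool.Agent.Helper80.Kl

open Finset

variable {n : ℕ}

/-- distance of the level of `C` to the middle level -/
def dst (C : Finset (Fin n)) : ℕ := (#C - n / 2) + (n / 2 - #C)

/-- depth in `[2^s, 2^(s+1))` -/
def Gs (s : ℕ) (A : Finset (Fin n)) : Prop := n / 2 < #A + 2 * 2 ^ s ∧ #A + 2 ^ s ≤ n / 2

/-- band of scale `s` -/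
def Bs (s : ℕ) (C : Finset (Fin n)) : Prop := n / 2 ≤ #C + 2 ^ s / 64 ∧ #C ≤ n / 2 + 2 ^ s / 64

instance (s : ℕ) (A : Finset (Fin n)) : Decidable (Gs s A) := by unfold Gs; infer_instance
instance (s : ℕ) (A : Finset (Fin n)) : Decidable (Bs s A) := by unfold Bs; infer_instance

/-- near threshold -/
def jn (s0 : ℕ) (C : Finset (Fin n)) : ℕ := 129 * dst C + 2 * 2 ^ s0

/-- topmost hit in `Gs s`, below a band member -/
noncomputable def Xc (F : Finset (Finset (Fin n))) (s : ℕ) (C : Finset (Fin n)) : ℝ :=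
  if Bs s C then Dop (cdn F fun A => if Gs s A then 1 else 0) C else 0

lemma Xc_nonneg (F : Finset (Finset (Fin n))) (s : ℕ) (C : Finset (Fin n)) : 0 ≤ Xc F s C := by
  unfold Xc
  split_ifs
  · refine Dop_nonneg fun y _ => cdn_nonneg (fun A _ => ?_) _
    split_ifs <;> norm_num
  · exact le_rfl

lemma exists_scale {s0 s2 : ℕ} {A C : Finset (Fin n)} (hwin : n / 2 < #A + 2 ^ (s2 + 1))
    (h : #A + jn s0 C < #C) : ∃ s ∈ Ico s0 (s2 + 1), Bs s C ∧ Gs s A := by
  have hd : 128 * dst C + 2 * 2 ^ s0 < n / 2 - #A := by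
    unfold jn at h; unfold dst at h ⊢; omega
  have hne : n / 2 - #A ≠ 0 := by omega
  have h1 := Nat.pow_log_le_self 2 hne
  have h2 := Nat.lt_pow_succ_log_self (b := 2) (by norm_num) (n / 2 - #A)
  set s := Nat.log 2 (n / 2 - #A) with hs
  rw [Nat.succ_eq_add_one, pow_succ] at h2
  refine ⟨s, mem_Ico.2 ⟨?_, ?_⟩, ?_, ?_⟩
  · by_contra hc
    push Not at hc
    have : 2 ^ (s + 1) ≤ 2 ^ s0 := Nat.pow_le_pow_right (by norm_num) hc
    rw [pow_succ] at this
    omega
  · by_contra hc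
    push Not at hc
    have : 2 ^ (s2 + 1) ≤ 2 ^ s := Nat.pow_le_pow_right (by norm_num) hc
    omega
  · unfold Bs
    unfold dst at hd
    omega
  · unfold Gs
    omega

theorem dop_split {F : Finset (Finset (Fin n))}
    (hF : ∀ A ∈ F, ∀ B ∈ F, ∀ C ∈ F, A ≠ B → A ≠ C → B ≠ C → A ∪ B ≠ C) {s0 s2 : ℕ}
    (hwin : ∀ A ∈ F, n / 2 < #A + 2 ^ (s2 + 1)) {C : Finset (Fin n)} (hC : C ∈ F)
    (hj : 2 * jn s0 C ≤ #C) :
    Dop (cdn F fun _ => 1) C ≤ (jn s0 C : ℝ) / #C + ∑ s ∈ Ico s0 (s2 + 1), Xc F s C := by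
  have hjpos : 0 < jn s0 C := by unfold jn; positivity
  set φ : ℕ → Finset (Fin n) → ℝ := fun s A => if Bs s C ∧ Gs s A then 1 else 0 with hφ
  have hφ0 : ∀ s A, 0 ≤ φ s A := fun s A => by rw [hφ]; dsimp only; split_ifs <;> norm_num
  have h1 : Dop (cdn F fun _ => 1) C
      ≤ Dop (cdn F fun A => (if #C - jn s0 C ≤ #A then 1 else 0)
          + ∑ s ∈ Ico s0 (s2 + 1), φ s A) C := by
    refine Dop_mono fun y _ => cdn_mono (fun A hA => ?_) _
    by_cases h : #C - jn s0 C ≤ #A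
    · rw [if_pos h]
      have : 0 ≤ ∑ s ∈ Ico s0 (s2 + 1), φ s A := sum_nonneg fun s _ => hφ0 s A
      linarith
    · rw [if_neg h]
      obtain ⟨s, hs, hB, hG⟩ := exists_scale (s0 := s0) (C := C) (hwin A hA) (by omega)
      have : φ s A ≤ ∑ s ∈ Ico s0 (s2 + 1), φ s A :=
        single_le_sum (f := fun s => φ s A) (fun s _ => hφ0 s A) hs
      have e : φ s A = 1 := by rw [hφ]; dsimp only; rw [if_pos ⟨hB, hG⟩]
      linarith
  rw [Dop_cdn_add, Dop_cdn_sum] at h1
  have h2 := near_le hF hC (l := #C - jn s0 C) (by omega) (by omega)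
  have e1 : ((#C : ℝ) - ((#C - jn s0 C : ℕ) : ℝ)) = jn s0 C := by
    rw [Nat.cast_sub (by omega)]; ring
  rw [e1] at h2
  have h3 : ∀ s ∈ Ico s0 (s2 + 1), Dop (cdn F (φ s)) C = Xc F s C := by
    intro s _
    unfold Xc
    by_cases hB : Bs s C
    · rw [if_pos hB]
      have : φ s = fun A => if Gs s A then 1 else 0 := by
        funext A; rw [hφ]; dsimp only; simp [hB]
      rw [this]
    · rw [if_neg hB]
      have : φ s = fun A => 0 := by
        funext A; rw [hφ]; dsimp only; simp [hB]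
      rw [this, Dop, sum_eq_zero fun y _ => cdn_zero F _, zero_div]
  rw [sum_congr rfl h3] at h1
  linarith

end Pool.Agent.Helper80.Kl
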