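import Pool.Agent.Helper80.Kl.Window

/-! # Kleitman, section 8: parameters, tail and the final bound -/

set_option autoImplicit false

namespace Pool.Agent.Helper80.Kl

open Finset Kleitman

variable {n : ℕ}

/-- the number of sets outside the window -/
lemma tail_card (L : ℕ) (hL1 : 1 ≤ L) (F : Finset (Finset (Fin n)))
    (hF : ∀ A ∈ F, ¬ (n / 2 < #A + L ∧ #A ≤ n / 2 + L)) :
    (#F : ℝ) ≤ (n + 1) * ((n.choose (n / 2) : ℝ) * Real.exp (-((L : ℝ) ^ 2 / n))) := by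
  have h1 : #F = ∑ k ∈ range (n + 1), #(F.filter fun A => #A = k) := by
    refine card_eq_sum_card_fiberwise fun A _ => ?_
    have := card_le_univ A
    rw [Fintype.card_fin] at this
    simp only [coe_range, Set.mem_Iio]
    omega
  have hM := mid_pos n
  have h2 : ∀ k ∈ range (n + 1), ((#(F.filter fun A => #A = k) : ℕ) : ℝ)
      ≤ (n.choose (n / 2) : ℝ) * Real.exp (-((L : ℝ) ^ 2 / n)) := by
    intro k hk
    rw [mem_range] at hk
    by_cases hne : (F.filter fun A => #A = k).Nonempty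
    · obtain ⟨A, hA⟩ := hne
      rw [mem_filter] at hA
      have hbad := hF A hA.1
      rw [hA.2] at hbad
      have hsub : #(F.filter fun A => #A = k) ≤ n.choose k := by
        have h3 : F.filter (fun A => #A = k) ⊆ powersetCard k (univ : Finset (Fin n)) := by
          intro B hB
          rw [mem_filter] at hB
          exact mem_powersetCard.2 ⟨subset_univ _, hB.2⟩
        have := card_le_card h3
        rwa [card_powersetCard, card_univ, Fintype.card_fin] at this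
      have h3 : ((#(F.filter fun A => #A = k) : ℕ) : ℝ) ≤ (n.choose k : ℝ) := by exact_mod_cast hsub
      refine h3.trans ?_
      have h4 : (n.choose k : ℝ) = (n.choose (n / 2) : ℝ) * wt n k := by
        unfold wt; field_simp
      rw [h4]
      refine mul_le_mul_of_nonneg_left ?_ hM.le
      rcases le_total k (n / 2) with hle | hle
      · obtain ⟨j, hj⟩ : ∃ j, k = n / 2 - j ∧ j ≤ n / 2 ∧ L ≤ j := ⟨n / 2 - k, by omega, by omega, by omega⟩
        rw [hj.1]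
        refine (wt_low n j hj.2.1).trans ?_
        rw [Real.exp_le_exp, neg_le_neg_iff]
        refine div_le_div_of_nonneg_right ?_ (by positivity)
        have : (L : ℝ) ≤ j := by exact_mod_cast hj.2.2
        exact pow_le_pow_left₀ (by positivity) this 2
      · obtain ⟨j, hj⟩ : ∃ j, k = n / 2 + j ∧ n / 2 + j ≤ n ∧ L + 1 ≤ j :=
          ⟨k - n / 2, by omega, by omega, by omega⟩
        rw [hj.1]
        refine (wt_high n j hj.2.1).trans ?_
        rw [Real.exp_le_exp, neg_le_neg_iff]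
        refine div_le_div_of_nonneg_right ?_ (by positivity)
        have h5 : (L : ℝ) + 1 ≤ j := by exact_mod_cast hj.2.2
        have h6 : (0 : ℝ) ≤ L := by positivity
        nlinarith
    · rw [not_nonempty_iff_eq_empty] at hne
      rw [hne]
      simp only [card_empty, Nat.cast_zero]
      positivity
  rw [h1]
  push_cast
  refine (sum_le_sum h2).trans ?_
  rw [sum_const, card_range, nsmul_eq_mul]
  push_cast
  exact le_rfl

/-- the exponential of the window is tiny -/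
lemma exp_tail {L : ℕ} (hn : 10 ^ 200 ≤ n) (hL : n ^ 3 ≤ (10 * L) ^ 5) :
    ((n : ℝ) + 1) * Real.exp (-((L : ℝ) ^ 2 / n)) ≤ 1 / n := by
  have hn1 : (10 : ℝ) ^ 200 ≤ n := by exact_mod_cast hn
  have hn0 : (0 : ℝ) < n := lt_of_lt_of_le (by positivity) hn1
  have hL' : (n : ℝ) ^ 3 ≤ (10 * L) ^ 5 := by exact_mod_cast hL
  set x : ℝ := (L : ℝ) ^ 2 / n with hx
  have hx0 : 0 ≤ x := by positivity
  have h1 : (n : ℝ) / 10 ^ 10 ≤ x ^ 5 := by
    rw [hx, div_pow, div_le_div_iff₀ (by positivity) (by positivity)]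
    have h2 : ((n : ℝ) ^ 3) ^ 2 ≤ ((10 * (L : ℝ)) ^ 5) ^ 2 := pow_le_pow_left₀ (by positivity) hL' 2
    have e1 : (n : ℝ) * n ^ 5 = (n ^ 3) ^ 2 := by ring
    have e2 : ((L : ℝ) ^ 2) ^ 5 * 10 ^ 10 = ((10 * (L : ℝ)) ^ 5) ^ 2 := by ring
    rw [e1, e2]
    exact h2
  have h2 : ((n : ℝ) / 10 ^ 10) ^ 3 ≤ (x ^ 5) ^ 3 := pow_le_pow_left₀ (by positivity) h1 3
  have h3 := Real.pow_div_factorial_le_exp x hx0 15
  have h4 : (Nat.factorial 15 : ℝ) ≤ 10 ^ 13 := by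
    have : Nat.factorial 15 ≤ 10 ^ 13 := by decide
    exact_mod_cast this
  have h5 : (0 : ℝ) < (Nat.factorial 15 : ℝ) := by positivity
  have h6 : (n : ℝ) * (n + 1) ≤ Real.exp x := by
    refine le_trans ?_ h3
    rw [le_div_iff₀ h5]
    calc (n : ℝ) * (n + 1) * (Nat.factorial 15 : ℝ) ≤ (n : ℝ) * (n + 1) * 10 ^ 13 :=
          mul_le_mul_of_nonneg_left h4 (by positivity)
      _ ≤ ((n : ℝ) / 10 ^ 10) ^ 3 := by
          rw [div_pow, le_div_iff₀ (by positivity)]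
          have h7 : (10 : ℝ) ^ 44 ≤ n := le_trans (by norm_num) hn1
          nlinarith [mul_pos hn0 hn0]
      _ ≤ (x ^ 5) ^ 3 := h2
      _ = x ^ 15 := by ring
  rw [Real.exp_neg, ← one_div, mul_one_div, div_le_div_iff₀ (Real.exp_pos x) hn0]
  linarith

/-- existence of the parameters -/
lemma exists_par (hn : 10 ^ 200 ≤ n) : ∃ s1 s2 : ℕ, Par n 60 s1 s2 (10 ^ 15) ∧
    (5 * 2 ^ (s2 + 1)) ^ 5 ≤ n ^ 3 ∧ n ^ 3 ≤ (10 * 2 ^ (s2 + 1)) ^ 5 := by
  have hnR : (10 : ℝ) ^ 200 ≤ n := by exact_mod_cast hn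
  have hn0 : (0 : ℝ) < n := lt_of_lt_of_le (by positivity) hnR
  have hbig : ∀ k ≤ 200, (10 : ℝ) ^ k ≤ n := fun k hk =>
    (pow_le_pow_right₀ (by norm_num) hk).trans hnR
  have hnpos : 0 < n := by exact_mod_cast hn0
  -- the scale `s1`
  set s1 := Nat.log 4 (4 * n) with hs1
  have a1 : 4 ^ s1 ≤ 4 * n := Nat.pow_log_le_self 4 (by omega)
  have a2 : 4 * n < 4 ^ (s1 + 1) := Nat.lt_pow_succ_log_self (by norm_num) _
  have a1' : (4 : ℝ) ^ s1 ≤ 4 * n := by exact_mod_cast a1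
  have a2' : 4 * (n : ℝ) < 4 ^ (s1 + 1) := by exact_mod_cast a2
  -- the scale `e = s2 + 1`
  set X := n ^ 3 / 3125 with hX
  have hX0 : X ≠ 0 := by
    have h1 : 3125 ≤ n ^ 3 := by
      have h2 : (10 : ℝ) ^ 4 ≤ n := hbig 4 (by norm_num)
      have h3 : 10 ^ 4 ≤ n := by exact_mod_cast h2
      calc 3125 ≤ 10 ^ 4 := by norm_num
        _ ≤ n := h3
        _ = n ^ 1 := (pow_one n).symm
        _ ≤ n ^ 3 := Nat.pow_le_pow_right hnpos (by norm_num)
    have := Nat.div_pos h1 (by norm_num)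
    omega
  have b1 := Nat.pow_log_le_self 2 hX0
  have b2 := Nat.lt_pow_succ_log_self (b := 2) (by norm_num) X
  rw [Nat.succ_eq_add_one] at b2
  obtain ⟨e, he⟩ : ∃ e, e = Nat.log 2 X / 5 := ⟨_, rfl⟩
  have b3 : 2 ^ (5 * e) ≤ X := (Nat.pow_le_pow_right (by norm_num) (by omega)).trans b1
  have b4 : X < 2 ^ (5 * e + 5) := lt_of_lt_of_le b2 (Nat.pow_le_pow_right (by norm_num) (by omega))
  have c1 : (5 * 2 ^ e) ^ 5 ≤ n ^ 3 := by
    calc (5 * 2 ^ e) ^ 5 = 3125 * 2 ^ (5 * e) := by rw [mul_pow, ← pow_mul, mul_comm e 5]; norm_num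
      _ ≤ 3125 * X := Nat.mul_le_mul_left _ b3
      _ ≤ n ^ 3 := Nat.mul_div_le _ _
  have c2 : n ^ 3 ≤ (10 * 2 ^ e) ^ 5 := by
    have h1 : n ^ 3 < 3125 * (X + 1) := by
      rw [hX]; exact Nat.lt_mul_div_succ _ (by norm_num)
    calc n ^ 3 ≤ 3125 * (X + 1) := h1.le
      _ ≤ 3125 * 2 ^ (5 * e + 5) := Nat.mul_le_mul_left _ b4
      _ = (10 * 2 ^ e) ^ 5 := by
        rw [mul_pow, ← pow_mul, mul_comm e 5, pow_add]; norm_num; ring
  have c1' : (5 * (2 : ℝ) ^ e) ^ 5 ≤ n ^ 3 := by exact_mod_cast c1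
  have c2' : (n : ℝ) ^ 3 ≤ (10 * 2 ^ e) ^ 5 := by exact_mod_cast c2
  have d1 : s1 + 1 ≤ e := by
    by_contra hc
    push Not at hc
    have h1 : (2 : ℝ) ^ e ≤ 2 ^ s1 := pow_le_pow_right₀ (by norm_num) (by omega)
    have h2 : (n : ℝ) ^ 3 ≤ (10 * 2 ^ s1) ^ 5 :=
      c2'.trans (pow_le_pow_left₀ (by positivity) (by linarith) 5)
    have h3 : ((n : ℝ) ^ 3) ^ 2 ≤ ((10 * 2 ^ s1) ^ 5) ^ 2 := pow_le_pow_left₀ (by positivity) h2 2
    have h4 : ((10 * (2 : ℝ) ^ s1) ^ 5) ^ 2 = 10 ^ 10 * (4 ^ s1) ^ 5 := by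
      rw [show (4 : ℝ) ^ s1 = (2 ^ s1) ^ 2 by rw [← pow_mul, mul_comm, pow_mul]; norm_num]
      ring
    have h5 : ((4 : ℝ) ^ s1) ^ 5 ≤ (4 * n) ^ 5 := pow_le_pow_left₀ (by positivity) a1' 5
    have h6 : (n : ℝ) ^ 6 ≤ 10 ^ 10 * (4 * n) ^ 5 := by
      calc (n : ℝ) ^ 6 = (n ^ 3) ^ 2 := by ring
        _ ≤ _ := h3
        _ = _ := h4
        _ ≤ _ := mul_le_mul_of_nonneg_left h5 (by norm_num)
    have h7 : (10 : ℝ) ^ 20 ≤ n := hbig 20 (by norm_num)
    have h8 : 0 < (n : ℝ) ^ 5 := by positivity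
    have h9 : (n : ℝ) ^ 5 * n ≤ (n : ℝ) ^ 5 * (10 ^ 10 * 1024) := by
      calc (n : ℝ) ^ 5 * n = n ^ 6 := by ring
        _ ≤ _ := h6
        _ = _ := by ring
    have h10 := le_of_mul_le_mul_left h9 h8
    norm_num at h7 h10
    linarith
  have d2 : 60 ≤ s1 := by
    by_contra hc
    push Not at hc
    have h1 : (4 : ℝ) ^ (s1 + 1) ≤ 4 ^ 60 := pow_le_pow_right₀ (by norm_num) (by omega)
    have h2 : (10 : ℝ) ^ 60 ≤ n := hbig 60 (by norm_num)
    have h3 : (4 : ℝ) ^ 60 ≤ 10 ^ 60 := by norm_num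
    linarith
  obtain ⟨s2, rfl⟩ : ∃ s2, e = s2 + 1 := ⟨e - 1, by omega⟩
  refine ⟨s1, s2, ⟨hn0, le_rfl, d2, by omega, a1', a2', by norm_num, ?_, ?_⟩, c1, c2⟩
  · -- cubic condition
    set L : ℝ := 2 ^ (s2 + 1) with hL
    have hL0 : 0 < L := by positivity
    have h1 : (10 ^ 20 * 10 ^ 15 * L ^ 3) ^ 5 ≤ ((n : ℝ) ^ 2) ^ 5 := by
      calc (10 ^ 20 * 10 ^ 15 * L ^ 3) ^ 5 = 10 ^ 175 / 5 ^ 15 * ((5 * L) ^ 5) ^ 3 := by ring
        _ ≤ 10 ^ 175 / 5 ^ 15 * ((n : ℝ) ^ 3) ^ 3 :=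
            mul_le_mul_of_nonneg_left (pow_le_pow_left₀ (by positivity) c1' 3) (by positivity)
        _ ≤ n * ((n : ℝ) ^ 3) ^ 3 := by
            refine mul_le_mul_of_nonneg_right ?_ (by positivity)
            refine le_trans ?_ (hbig 175 (by norm_num))
            exact div_le_self (by positivity) (by norm_num)
        _ = ((n : ℝ) ^ 2) ^ 5 := by ring
    exact le_of_pow_le_pow_left₀ (by norm_num) (by positivity) h1
  · set L : ℝ := 2 ^ (s2 + 1) with hL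
    have hL0 : 0 < L := by positivity
    have h1 : L ^ 5 ≤ (n : ℝ) ^ 5 := by
      calc L ^ 5 ≤ (5 * L) ^ 5 := pow_le_pow_left₀ hL0.le (by linarith) 5
        _ ≤ (n : ℝ) ^ 3 := c1'
        _ ≤ (n : ℝ) ^ 5 := pow_le_pow_right₀ (by linarith [hbig 0 (by norm_num)]) (by norm_num)
    exact le_of_pow_le_pow_left₀ (by norm_num) (by positivity) h1

theorem large_bound (hML : ML n) (hn : 10 ^ 200 ≤ n) {F : Finset (Finset (Fin n))}
    (hF : ∀ A ∈ F, ∀ B ∈ F, ∀ C ∈ F, A ≠ B → A ≠ C → B ≠ C → A ∪ B ≠ C) :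
    (#F : ℝ) ≤ (n.choose (n / 2) : ℝ) * (1 + 10 ^ 32 / n) := by
  obtain ⟨s1, s2, hpar, hR, hL⟩ := exists_par hn
  have hn0 := hpar.hn
  have hM := mid_pos n
  set p : Finset (Fin n) → Prop := fun A => n / 2 < #A + 2 ^ (s2 + 1) ∧ #A ≤ n / 2 + 2 ^ (s2 + 1)
    with hp
  have hsplit : #(F.filter p) + #(F.filter fun A => ¬ p A) = #F := card_filter_add_card_filter_not _
  have h1 := window_bound hML (le_trans (Nat.pow_le_pow_right (by norm_num) (by norm_num)) hn)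
    hpar le_rfl hR (F := F.filter p)
    (fun A hA B hB C hC => hF A (mem_filter.1 hA).1 B (mem_filter.1 hB).1 C (mem_filter.1 hC).1)
    (fun A hA => (mem_filter.1 hA).2)
  have h2 := tail_card (2 ^ (s2 + 1)) Nat.one_le_two_pow (F.filter fun A => ¬ p A) (fun A hA => (mem_filter.1 hA).2)
  have h3 := exp_tail hn hL
  have h4 : (#F : ℝ) = (#(F.filter p) : ℝ) + (#(F.filter fun A => ¬ p A) : ℝ) := by
    rw [← hsplit]; push_cast; ring
  have h5 : (#(F.filter fun A => ¬ p A) : ℝ) ≤ (n.choose (n / 2) : ℝ) * (1 / n) := by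
    calc _ ≤ _ := h2
      _ = (n.choose (n / 2) : ℝ) * (((n : ℝ) + 1) * Real.exp (-((((2 ^ (s2 + 1) : ℕ) : ℝ)) ^ 2 / n))) := by
        ring
      _ ≤ _ := mul_le_mul_of_nonneg_left h3 hM.le
  have h6 : (n.choose (n / 2) : ℝ) * (1 + (16 * 2 ^ 60 + 10 ^ 31) / n) + (n.choose (n / 2) : ℝ) * (1 / n)
      ≤ (n.choose (n / 2) : ℝ) * (1 + 10 ^ 32 / n) := by
    rw [← mul_add]
    refine mul_le_mul_of_nonneg_left ?_ hM.le
    have : (16 * (2 : ℝ) ^ 60 + 10 ^ 31) / n + 1 / n ≤ 10 ^ 32 / n := by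
      rw [← add_div]
      exact div_le_div_of_nonneg_right (by norm_num) hn0.le
    linarith
  linarith

/-- Kleitman's union-free bound from the main lemma -/
theorem from_main (hML : ∀ n, ML n) :
    ∃ c : ℝ, ∀ n : ℕ, ∀ F : Finset (Finset (Fin n)),
      (∀ A ∈ F, ∀ B ∈ F, ∀ C ∈ F, A ≠ B → A ≠ C → B ≠ C → A ∪ B ≠ C) →
      (F.card : ℝ) ≤ (n.choose (n / 2) : ℝ) * (1 + c / (n : ℝ)) := by
  obtain ⟨N, hN⟩ : ∃ N : ℕ, ∀ n, N ≤ n → ∀ F : Finset (Finset (Fin n)),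
      (∀ A ∈ F, ∀ B ∈ F, ∀ C ∈ F, A ≠ B → A ≠ C → B ≠ C → A ∪ B ≠ C) →
      (F.card : ℝ) ≤ (n.choose (n / 2) : ℝ) * (1 + 10 ^ 32 / (n : ℝ)) :=
    ⟨10 ^ 200, fun n hn F hF => large_bound (hML n) hn hF⟩
  refine ⟨10 ^ 32 + N * 2 ^ N, fun n F hF => ?_⟩
  have hM := mid_pos n
  rcases le_total N n with h | h
  · refine (hN n h F hF).trans (mul_le_mul_of_nonneg_left ?_ hM.le)
    have : (10 : ℝ) ^ 32 / n ≤ (10 ^ 32 + N * 2 ^ N) / n := by
      refine div_le_div_of_nonneg_right ?_ (by positivity)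
      have : (0 : ℝ) ≤ N * 2 ^ N := by positivity
      linarith
    linarith
  · have hcard : #F ≤ 2 ^ n := by
      have := card_le_univ F
      rwa [Fintype.card_finset, Fintype.card_fin] at this
    have hM1 : (1 : ℝ) ≤ (n.choose (n / 2) : ℝ) := by
      have : 1 ≤ n.choose (n / 2) := Nat.choose_pos (Nat.div_le_self n 2)
      exact_mod_cast this
    rcases Nat.eq_zero_or_pos n with h0 | h0
    · subst h0
      have : (#F : ℝ) ≤ 1 := by exact_mod_cast hcard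
      simpa using this
    · have hn0 : (0 : ℝ) < n := by exact_mod_cast h0
      have h1 : (#F : ℝ) ≤ 2 ^ n := by exact_mod_cast hcard
      have h2 : (2 : ℝ) ^ n ≤ 2 ^ N := pow_le_pow_right₀ (by norm_num) h
      have h3 : (2 : ℝ) ^ N ≤ (10 ^ 32 + N * 2 ^ N) / n := by
        rw [le_div_iff₀ hn0]
        have h4 : (n : ℝ) ≤ N := by exact_mod_cast h
        have h5 : (0 : ℝ) < 2 ^ N := by positivity
        nlinarith
      have h4 : (0 : ℝ) ≤ (10 ^ 32 + N * 2 ^ N) / n := by positivity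
      nlinarith

end Pool.Agent.Helper80.Kl
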