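import Mathlib

set_option autoImplicit false
set_option linter.unusedSectionVars false
set_option linter.unusedVariables false

namespace Pool.Agent.Helper80.Kl

open Finset

variable {α : Type*} [Fintype α] [DecidableEq α]

/-- probability that a random maximal chain of subsets passes through `C` -/
noncomputable def P (C : Finset α) : ℝ := 1 / ((Fintype.card α).choose #C : ℝ)

/-- average over the `k`-sets -/
noncomputable def E (k : ℕ) (f : Finset α → ℝ) : ℝ :=
  (∑ S ∈ (univ : Finset α).powersetCard k, f S) / ((Fintype.card α).choose k : ℝ)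

/-- average over the sets covering `S` -/
noncomputable def Uop (f : Finset α → ℝ) (S : Finset α) : ℝ :=
  (∑ v ∈ Sᶜ, f (insert v S)) / (#Sᶜ : ℝ)

/-- average over the sets covered by `S` -/
noncomputable def Dop (f : Finset α → ℝ) (S : Finset α) : ℝ :=
  (∑ y ∈ S, f (S.erase y)) / (#S : ℝ)

lemma P_pos (C : Finset α) : 0 < P C := by
  unfold P
  have : 0 < (Fintype.card α).choose #C := Nat.choose_pos (card_le_univ C)
  positivity

lemma Dop_empty (f : Finset α → ℝ) : Dop f ∅ = 0 := by simp [Dop]

lemma Uop_univ (f : Finset α → ℝ) : Uop f univ = 0 := by simp [Uop]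

/-- double counting of covering pairs -/
lemma sum_cover (k : ℕ) (g : Finset α → Finset α → ℝ) :
    ∑ S ∈ (univ : Finset α).powersetCard k, ∑ v ∈ Sᶜ, g S (insert v S)
      = ∑ W ∈ (univ : Finset α).powersetCard (k + 1), ∑ y ∈ W, g (W.erase y) W := by
  rw [sum_sigma', sum_sigma']
  refine sum_bij' (fun p _ => ⟨insert p.2 p.1, p.2⟩) (fun p _ => ⟨p.1.erase p.2, p.2⟩) ?_ ?_ ?_ ?_ ?_
  · rintro ⟨S, v⟩ h
    simp only [mem_sigma, mem_powersetCard, mem_compl, subset_univ, true_and] at h ⊢
    exact ⟨by rw [card_insert_of_notMem h.2, h.1], mem_insert_self _ _⟩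
  · rintro ⟨W, y⟩ h
    simp only [mem_sigma, mem_powersetCard, mem_compl, subset_univ, true_and] at h ⊢
    exact ⟨by rw [card_erase_of_mem h.2, h.1]; rfl, notMem_erase _ _⟩
  · rintro ⟨S, v⟩ h
    simp only [mem_sigma, mem_powersetCard, mem_compl, subset_univ, true_and] at h
    simp [erase_insert h.2]
  · rintro ⟨W, y⟩ h
    simp only [mem_sigma, mem_powersetCard, subset_univ, true_and] at h
    simp [insert_erase h.2]
  · rintro ⟨S, v⟩ h
    simp only [mem_sigma, mem_powersetCard, mem_compl, subset_univ, true_and] at h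
    simp [erase_insert h.2]

/-- duality between up and down averages -/
lemma duality (k : ℕ) (hk : k + 1 ≤ Fintype.card α) (a b : Finset α → ℝ) :
    E k (fun S => a S * Uop b S) = E (k + 1) (fun W => Dop a W * b W) := by
  unfold E
  have h1 : ∑ S ∈ (univ : Finset α).powersetCard k, a S * Uop b S
      = (∑ S ∈ (univ : Finset α).powersetCard k, ∑ v ∈ Sᶜ, a S * b (insert v S))
        / ((Fintype.card α - k : ℕ) : ℝ) := by
    rw [sum_div]
    refine sum_congr rfl fun S hS => ?_
    rw [mem_powersetCard] at hS
    rw [Uop, card_compl, hS.2, ← mul_sum, mul_div_assoc]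
  have h2 : ∑ W ∈ (univ : Finset α).powersetCard (k + 1), Dop a W * b W
      = (∑ W ∈ (univ : Finset α).powersetCard (k + 1), ∑ y ∈ W, a (W.erase y) * b W)
        / ((k + 1 : ℕ) : ℝ) := by
    rw [sum_div]
    refine sum_congr rfl fun W hW => ?_
    rw [mem_powersetCard] at hW
    rw [Dop, hW.2, ← sum_mul]
    ring
  rw [h1, h2, sum_cover k (fun S W => a S * b W), div_div, div_div]
  congr 1
  have h3 := Nat.choose_succ_right_eq (Fintype.card α) k
  have h4 : ((Fintype.card α).choose (k + 1) * (k + 1) : ℝ)
      = (Fintype.card α).choose k * ((Fintype.card α - k : ℕ) : ℝ) := by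
    exact_mod_cast h3
  push_cast at h4 ⊢
  linarith

lemma E_congr {k : ℕ} {f g : Finset α → ℝ} (h : ∀ S : Finset α, #S = k → f S = g S) :
    E k f = E k g := by
  unfold E
  congr 1
  refine sum_congr rfl fun S hS => ?_
  rw [mem_powersetCard] at hS
  exact h S hS.2

lemma E_mono {k : ℕ} {f g : Finset α → ℝ} (h : ∀ S : Finset α, #S = k → f S ≤ g S) :
    E k f ≤ E k g := by
  unfold E
  refine div_le_div_of_nonneg_right ?_ (by positivity)
  refine sum_le_sum fun S hS => ?_
  rw [mem_powersetCard] at hS
  exact h S hS.2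

lemma E_add (k : ℕ) (f g : Finset α → ℝ) : E k (fun S => f S + g S) = E k f + E k g := by
  unfold E; rw [sum_add_distrib, add_div]

lemma E_sub (k : ℕ) (f g : Finset α → ℝ) : E k (fun S => f S - g S) = E k f - E k g := by
  unfold E; rw [sum_sub_distrib, sub_div]

lemma E_zero_level (f : Finset α → ℝ) : E 0 f = f ∅ := by
  simp [E]

lemma E_top_level (f : Finset α → ℝ) : E (Fintype.card α) f = f univ := by
  unfold E
  rw [Nat.choose_self, Nat.cast_one, div_one, ← card_univ, powersetCard_self, sum_singleton]

/-- sum over a family, written by levels -/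
lemma sum_E_family (F : Finset (Finset α)) (g : Finset α → ℝ) :
    ∑ k ∈ range (Fintype.card α + 1), E k (fun S => if S ∈ F then g S else 0)
      = ∑ C ∈ F, P C * g C := by
  unfold E P
  have h1 : ∀ k ∈ range (Fintype.card α + 1),
      (∑ S ∈ (univ : Finset α).powersetCard k, (if S ∈ F then g S else 0))
        / ((Fintype.card α).choose k : ℝ)
      = ∑ C ∈ F, if #C = k then 1 / ((Fintype.card α).choose #C : ℝ) * g C else 0 := by
    intro k _
    rw [← sum_filter, ← sum_filter, sum_div]
    refine sum_congr ?_ ?_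
    · ext S
      simp only [mem_filter, mem_powersetCard, subset_univ, true_and]
      tauto
    · intro S hS
      rw [mem_filter] at hS
      rw [hS.2]
      ring
  rw [sum_congr rfl h1, sum_comm]
  refine sum_congr rfl fun C _ => ?_
  rw [sum_ite_eq]
  rw [if_pos]
  rw [mem_range]
  exact Nat.lt_succ_of_le (card_le_univ C)

/-! ### first hits of the down chain and of the up chain -/

/-- expected value of `φ` at the first (topmost) member of `F` met by the random down chain
started at `S` (`S` included) -/
noncomputable def cdn (F : Finset (Finset α)) (φ : Finset α → ℝ) (S : Finset α) : ℝ :=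
  if S ∈ F then φ S else (∑ y ∈ S.attach, cdn F φ (S.erase y.1)) / (#S : ℝ)
termination_by #S
decreasing_by exact card_erase_lt_of_mem y.2

/-- expected value of `φ` at the first member of `F` met by the random up chain
started at `S` (`S` included) -/
noncomputable def cup (F : Finset (Finset α)) (φ : Finset α → ℝ) (S : Finset α) : ℝ :=
  if S ∈ F then φ S else (∑ v ∈ (Sᶜ).attach, cup F φ (insert v.1 S)) / (#Sᶜ : ℝ)
termination_by #Sᶜ
decreasing_by
  have h := v.2
  rw [mem_compl] at h
  rw [card_compl, card_compl, card_insert_of_notMem h]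
  have := card_lt_univ_of_notMem h
  omega

lemma cdn_mem {F : Finset (Finset α)} {φ : Finset α → ℝ} {S : Finset α} (h : S ∈ F) :
    cdn F φ S = φ S := by
  rw [cdn, if_pos h]

lemma cdn_notMem {F : Finset (Finset α)} {φ : Finset α → ℝ} {S : Finset α} (h : S ∉ F) :
    cdn F φ S = Dop (cdn F φ) S := by
  rw [cdn, if_neg h, Dop, sum_attach S (fun y => cdn F φ (S.erase y))]

lemma cup_mem {F : Finset (Finset α)} {φ : Finset α → ℝ} {S : Finset α} (h : S ∈ F) :
    cup F φ S = φ S := by
  rw [cup, if_pos h]

lemma cup_notMem {F : Finset (Finset α)} {φ : Finset α → ℝ} {S : Finset α} (h : S ∉ F) :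
    cup F φ S = Uop (cup F φ) S := by
  rw [cup, if_neg h, Uop, sum_attach Sᶜ (fun v => cup F φ (insert v S))]

lemma E_Dop (k : ℕ) (hk : k + 1 ≤ Fintype.card α) (a : Finset α → ℝ) :
    E (k + 1) (Dop a) = E k a := by
  have h := duality k hk a (fun _ => 1)
  have h2 : E k (fun S => a S * Uop (fun _ => (1 : ℝ)) S) = E k a := by
    apply E_congr
    intro S hS
    rw [Uop, sum_const, nsmul_eq_mul, mul_one]
    have : (#Sᶜ : ℝ) ≠ 0 := by
      rw [card_compl, hS]
      have : 0 < Fintype.card α - k := by omega
      exact_mod_cast this.ne'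
    rw [div_self this, mul_one]
  rw [h2] at h
  rw [h]
  apply E_congr
  intro S _
  rw [mul_one]

lemma E_Uop (k : ℕ) (hk : k + 1 ≤ Fintype.card α) (b : Finset α → ℝ) :
    E k (Uop b) = E (k + 1) b := by
  have h := duality k hk (fun _ => 1) b
  have h2 : E (k + 1) (fun S => Dop (fun _ => (1 : ℝ)) S * b S) = E (k + 1) b := by
    apply E_congr
    intro S hS
    rw [Dop, sum_const, nsmul_eq_mul, mul_one]
    have : (#S : ℝ) ≠ 0 := by
      rw [hS]
      positivity
    rw [div_self this, one_mul]
  rw [h2] at h
  rw [← h]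
  apply E_congr
  intro S _
  rw [one_mul]

/-- telescoping identity for the first hit of the full down chain -/
theorem cdn_univ (F : Finset (Finset α)) (φ : Finset α → ℝ) :
    cdn F φ univ = ∑ C ∈ F, P C * (φ C - Dop (cdn F φ) C) := by
  rw [← sum_E_family F (fun C => φ C - Dop (cdn F φ) C)]
  have key : ∀ k, k ≤ Fintype.card α →
      ∑ j ∈ range (k + 1), E j (fun S => if S ∈ F then φ S - Dop (cdn F φ) S else 0)
        = E k (cdn F φ) := by
    intro k
    induction k with
    | zero =>
      intro _
      rw [sum_range_one, E_zero_level, E_zero_level]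
      by_cases h : (∅ : Finset α) ∈ F
      · rw [if_pos h, cdn_mem h, Dop_empty, sub_zero]
      · rw [if_neg h, cdn_notMem h, Dop_empty]
    | succ k ih =>
      intro hk
      rw [sum_range_succ, ih (by omega), ← E_Dop k hk, ← E_add]
      apply E_congr
      intro S _
      by_cases h : S ∈ F
      · rw [if_pos h, cdn_mem h]; ring
      · rw [if_neg h, cdn_notMem h, add_zero]
  rw [key _ le_rfl, E_top_level]

/-- duality for consecutive hits -/
theorem cdn_cup_duality (F : Finset (Finset α)) (φ ψ : Finset α → ℝ) :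
    ∑ A ∈ F, P A * (φ A * Uop (cup F ψ) A) = ∑ C ∈ F, P C * (ψ C * Dop (cdn F φ) C) := by
  rw [← sum_E_family F (fun A => φ A * Uop (cup F ψ) A),
    ← sum_E_family F (fun C => ψ C * Dop (cdn F φ) C)]
  have key : ∀ k, k ≤ Fintype.card α →
      ∑ j ∈ range (k + 1), E j (fun S => if S ∈ F then φ S * Uop (cup F ψ) S else 0)
        = ∑ j ∈ range (k + 1), E j (fun S => if S ∈ F then ψ S * Dop (cdn F φ) S else 0)
          + E k (fun S => cdn F φ S * Uop (cup F ψ) S) := by
    intro k
    induction k with
    | zero =>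
      intro _
      rw [sum_range_one, sum_range_one, E_zero_level, E_zero_level, E_zero_level]
      by_cases h : (∅ : Finset α) ∈ F
      · rw [if_pos h, if_pos h, cdn_mem h, Dop_empty]; ring
      · rw [if_neg h, if_neg h, cdn_notMem h, Dop_empty]; ring
    | succ k ih =>
      intro hk
      rw [sum_range_succ _ (k + 1), ih (by omega), sum_range_succ _ (k + 1), duality k hk,
        add_assoc, ← E_add, add_assoc, ← E_add]
      congr 1
      apply E_congr
      intro S _
      by_cases h : S ∈ F
      · rw [if_pos h, if_pos h, cup_mem h, cdn_mem h]; ring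
      · rw [if_neg h, if_neg h, ← cup_notMem h, cdn_notMem h]; ring
  have h := key _ le_rfl
  rw [E_top_level] at h
  rw [h, Uop_univ, mul_zero, add_zero]

end Pool.Agent.Helper80.Kl
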