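import Mathlib
import Pool.Agent.Helper80.Kl.LevelCalc

set_option autoImplicit false
set_option linter.unusedSectionVars false
set_option linter.unusedVariables false

namespace Pool.Agent.Helper80.Kl

open Finset

variable {α : Type*} [Fintype α] [DecidableEq α]

lemma Dop_mono {f g : Finset α → ℝ} {S : Finset α} (h : ∀ y ∈ S, f (S.erase y) ≤ g (S.erase y)) :
    Dop f S ≤ Dop g S := by
  unfold Dop
  exact div_le_div_of_nonneg_right (sum_le_sum h) (by positivity)

lemma Uop_mono {f g : Finset α → ℝ} {S : Finset α} (h : ∀ v ∈ Sᶜ, f (insert v S) ≤ g (insert v S)) :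
    Uop f S ≤ Uop g S := by
  unfold Uop
  exact div_le_div_of_nonneg_right (sum_le_sum h) (by positivity)

lemma Dop_nonneg {f : Finset α → ℝ} {S : Finset α} (h : ∀ y ∈ S, 0 ≤ f (S.erase y)) :
    0 ≤ Dop f S := by
  unfold Dop
  exact div_nonneg (sum_nonneg h) (by positivity)

lemma Uop_nonneg {f : Finset α → ℝ} {S : Finset α} (h : ∀ v ∈ Sᶜ, 0 ≤ f (insert v S)) :
    0 ≤ Uop f S := by
  unfold Uop
  exact div_nonneg (sum_nonneg h) (by positivity)

lemma Dop_le_const {f : Finset α → ℝ} {S : Finset α} {c : ℝ} (hc : 0 ≤ c)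
    (h : ∀ y ∈ S, f (S.erase y) ≤ c) : Dop f S ≤ c := by
  unfold Dop
  rcases S.eq_empty_or_nonempty with rfl | hS
  · simpa using hc
  · rw [div_le_iff₀ (by exact_mod_cast hS.card_pos)]
    calc ∑ y ∈ S, f (S.erase y) ≤ ∑ y ∈ S, c := sum_le_sum h
      _ = c * #S := by rw [sum_const, nsmul_eq_mul]; ring

lemma Uop_le_const {f : Finset α → ℝ} {S : Finset α} {c : ℝ} (hc : 0 ≤ c)
    (h : ∀ v ∈ Sᶜ, f (insert v S) ≤ c) : Uop f S ≤ c := by
  unfold Uop
  rcases (Sᶜ).eq_empty_or_nonempty with h0 | hS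
  · rw [h0]; simpa using hc
  · rw [div_le_iff₀ (by exact_mod_cast hS.card_pos)]
    calc ∑ v ∈ Sᶜ, f (insert v S) ≤ ∑ v ∈ Sᶜ, c := sum_le_sum h
      _ = c * #Sᶜ := by rw [sum_const, nsmul_eq_mul]; ring

/-- induction principle for down chains -/
lemma down_induction {p : Finset α → Prop} (h : ∀ S, (∀ y ∈ S, p (S.erase y)) → p S) (S : Finset α) :
    p S := by
  induction hk : #S generalizing S with
  | zero =>
    apply h
    intro y hy
    rw [card_eq_zero] at hk
    rw [hk] at hy
    exact absurd hy (notMem_empty y)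
  | succ k ih =>
    apply h
    intro y hy
    apply ih
    rw [card_erase_of_mem hy, hk]
    rfl

/-- induction principle for up chains -/
lemma up_induction {p : Finset α → Prop} (h : ∀ S, (∀ v ∈ Sᶜ, p (insert v S)) → p S)
    (S : Finset α) : p S := by
  induction hk : #Sᶜ generalizing S with
  | zero =>
    apply h
    intro y hy
    rw [card_eq_zero] at hk
    rw [hk] at hy
    exact absurd hy (notMem_empty y)
  | succ k ih =>
    apply h
    intro v hv
    apply ih
    have hv' := hv
    rw [mem_compl] at hv'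
    rw [← insert_erase hv, card_insert_of_notMem (notMem_erase _ _)] at hk
    have e : (insert v S)ᶜ = Sᶜ.erase v := by
      ext x
      simp only [mem_compl, mem_insert, mem_erase, not_or]
    rw [e]
    omega

lemma cdn_mono {F : Finset (Finset α)} {φ ψ : Finset α → ℝ} (h : ∀ A ∈ F, φ A ≤ ψ A)
    (S : Finset α) : cdn F φ S ≤ cdn F ψ S := by
  induction S using down_induction with
  | h S ih =>
    by_cases hS : S ∈ F
    · rw [cdn_mem hS, cdn_mem hS]; exact h S hS
    · rw [cdn_notMem hS, cdn_notMem hS]; exact Dop_mono ih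

lemma cup_mono {F : Finset (Finset α)} {φ ψ : Finset α → ℝ} (h : ∀ A ∈ F, φ A ≤ ψ A)
    (S : Finset α) : cup F φ S ≤ cup F ψ S := by
  induction S using up_induction with
  | h S ih =>
    by_cases hS : S ∈ F
    · rw [cup_mem hS, cup_mem hS]; exact h S hS
    · rw [cup_notMem hS, cup_notMem hS]; exact Uop_mono ih

lemma cdn_nonneg {F : Finset (Finset α)} {φ : Finset α → ℝ} (h : ∀ A ∈ F, 0 ≤ φ A)
    (S : Finset α) : 0 ≤ cdn F φ S := by
  induction S using down_induction with
  | h S ih =>
    by_cases hS : S ∈ F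
    · rw [cdn_mem hS]; exact h S hS
    · rw [cdn_notMem hS]; exact Dop_nonneg ih

lemma cup_nonneg {F : Finset (Finset α)} {φ : Finset α → ℝ} (h : ∀ A ∈ F, 0 ≤ φ A)
    (S : Finset α) : 0 ≤ cup F φ S := by
  induction S using up_induction with
  | h S ih =>
    by_cases hS : S ∈ F
    · rw [cup_mem hS]; exact h S hS
    · rw [cup_notMem hS]; exact Uop_nonneg ih

lemma cdn_le_one {F : Finset (Finset α)} {φ : Finset α → ℝ} (h : ∀ A ∈ F, φ A ≤ 1)
    (S : Finset α) : cdn F φ S ≤ 1 := by
  induction S using down_induction with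
  | h S ih =>
    by_cases hS : S ∈ F
    · rw [cdn_mem hS]; exact h S hS
    · rw [cdn_notMem hS]; exact Dop_le_const zero_le_one ih

lemma cup_le_one {F : Finset (Finset α)} {φ : Finset α → ℝ} (h : ∀ A ∈ F, φ A ≤ 1)
    (S : Finset α) : cup F φ S ≤ 1 := by
  induction S using up_induction with
  | h S ih =>
    by_cases hS : S ∈ F
    · rw [cup_mem hS]; exact h S hS
    · rw [cup_notMem hS]; exact Uop_le_const zero_le_one ih

lemma cdn_add (F : Finset (Finset α)) (φ ψ : Finset α → ℝ) (S : Finset α) :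
    cdn F (fun A => φ A + ψ A) S = cdn F φ S + cdn F ψ S := by
  induction S using down_induction with
  | h S ih =>
    by_cases hS : S ∈ F
    · rw [cdn_mem hS, cdn_mem hS, cdn_mem hS]
    · rw [cdn_notMem hS, cdn_notMem hS, cdn_notMem hS, Dop, Dop, Dop, ← add_div, ← sum_add_distrib,
        sum_congr rfl ih]

lemma cdn_zero (F : Finset (Finset α)) (S : Finset α) : cdn F (fun _ => 0) S = 0 := by
  induction S using down_induction with
  | h S ih =>
    by_cases hS : S ∈ F
    · rw [cdn_mem hS]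
    · rw [cdn_notMem hS, Dop, sum_congr rfl ih, sum_const_zero, zero_div]

lemma cdn_sum {ι : Type*} (s : Finset ι) (F : Finset (Finset α)) (φ : ι → Finset α → ℝ)
    (S : Finset α) : cdn F (fun A => ∑ i ∈ s, φ i A) S = ∑ i ∈ s, cdn F (φ i) S := by
  classical
  induction s using Finset.induction_on with
  | empty => simp only [sum_empty]; exact cdn_zero F S
  | insert i s hi ih =>
    simp only [sum_insert hi]
    rw [cdn_add, ih]

lemma Dop_cdn_add (F : Finset (Finset α)) (φ ψ : Finset α → ℝ) (S : Finset α) :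
    Dop (cdn F (fun A => φ A + ψ A)) S = Dop (cdn F φ) S + Dop (cdn F ψ) S := by
  rw [Dop, Dop, Dop, ← add_div, ← sum_add_distrib]
  congr 1
  exact sum_congr rfl fun y _ => cdn_add F φ ψ _

lemma Dop_cdn_sum {ι : Type*} (s : Finset ι) (F : Finset (Finset α)) (φ : ι → Finset α → ℝ)
    (S : Finset α) :
    Dop (cdn F (fun A => ∑ i ∈ s, φ i A)) S = ∑ i ∈ s, Dop (cdn F (φ i)) S := by
  unfold Dop
  rw [← sum_div, sum_comm]
  congr 1
  exact sum_congr rfl fun y _ => cdn_sum s F φ _

/-- the probability that the topmost hit lies in `φ`, seen from the hit -/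
theorem cdn_univ' (F : Finset (Finset α)) (φ : Finset α → ℝ) :
    cdn F φ univ = ∑ A ∈ F, P A * (φ A * (1 - Uop (cup F fun _ => 1) A)) := by
  have h1 := cdn_univ F φ
  have h2 := cdn_cup_duality F φ (fun _ => 1)
  rw [h1]
  have h3 : ∑ C ∈ F, P C * (φ C - Dop (cdn F φ) C)
      = ∑ C ∈ F, P C * φ C - ∑ C ∈ F, P C * (1 * Dop (cdn F φ) C) := by
    rw [← sum_sub_distrib]
    exact sum_congr rfl fun C _ => by ring
  rw [h3, ← h2, ← sum_sub_distrib]
  exact sum_congr rfl fun C _ => by ring

/-- if the topmost hit of `F` lies in `W ⊆ F`, then `W` is hit -/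
lemma cdn_sub {F W : Finset (Finset α)} (hW : W ⊆ F) (S : Finset α) :
    cdn F (fun A => if A ∈ W then 1 else 0) S ≤ cdn W (fun _ => 1) S := by
  induction S using down_induction with
  | h S ih =>
    by_cases hS : S ∈ F
    · rw [cdn_mem hS]
      by_cases hSW : S ∈ W
      · rw [if_pos hSW, cdn_mem hSW]
      · rw [if_neg hSW]
        exact cdn_nonneg (fun _ _ => zero_le_one) S
    · rw [cdn_notMem hS, cdn_notMem (fun h => hS (hW h))]
      exact Dop_mono ih

/-- total mass identity -/
theorem mass_identity (F : Finset (Finset α)) :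
    ∑ C ∈ F, P C = cdn F (fun _ => 1) univ + ∑ C ∈ F, P C * Dop (cdn F fun _ => 1) C := by
  rw [cdn_univ, ← sum_add_distrib]
  exact sum_congr rfl fun C _ => by ring

/-- consecutive pairs `(A,C)` with `A ∈ G`, `C ∈ B`, together with the topmost hits in `G` -/
theorem cons_add_top_le (F G B : Finset (Finset α)) :
    ∑ C ∈ F, P C * ((if C ∈ B then 1 else 0) * Dop (cdn F fun A => if A ∈ G then 1 else 0) C)
      + ∑ A ∈ F, P A * ((if A ∈ G then 1 else 0) * (1 - Uop (cup F fun _ => 1) A))
      ≤ ∑ A ∈ F, P A * (if A ∈ G then 1 else 0) := by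
  rw [← cdn_cup_duality, ← sum_add_distrib]
  refine sum_le_sum fun A hA => ?_
  rw [← mul_add, ← mul_add]
  refine mul_le_mul_of_nonneg_left ?_ (P_pos A).le
  have h0 : (0 : ℝ) ≤ (if A ∈ G then 1 else 0) := by split_ifs <;> norm_num
  have h1 : Uop (cup F fun C => if C ∈ B then 1 else 0) A ≤ Uop (cup F fun _ => 1) A := by
    refine Uop_mono fun v _ => cup_mono (fun C _ => ?_) _
    split_ifs <;> norm_num
  nlinarith

end Pool.Agent.Helper80.Kl
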