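import Pool.Agent.Helper80.Kl.Hits
import Pool.Agent.Helper44.KKcross

/-! # Kleitman, section 8: near pairs (EKR) -/

set_option autoImplicit false

namespace Pool.Agent.Helper80.Kl

open Finset

variable {α : Type*} [Fintype α] [DecidableEq α]

/-- average over the `l`-subsets -/
noncomputable def avl (l : ℕ) (w : Finset α → ℝ) (S : Finset α) : ℝ :=
  (∑ B ∈ powersetCard l S, w B) / ((#S).choose l : ℝ)

omit [Fintype α] in
lemma Dop_avl (l : ℕ) (w : Finset α → ℝ) (S : Finset α) (hS : l < #S) :
    Dop (avl l w) S = avl l w S := by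
  unfold Dop avl
  have hcard : ∀ y ∈ S, #(S.erase y) = #S - 1 := fun y hy => card_erase_of_mem hy
  have h1 : ∑ y ∈ S, (∑ B ∈ powersetCard l (S.erase y), w B) / ((#(S.erase y)).choose l : ℝ)
      = (∑ y ∈ S, ∑ B ∈ powersetCard l (S.erase y), w B) / ((#S - 1).choose l : ℝ) := by
    rw [sum_div]
    exact sum_congr rfl fun y hy => by rw [hcard y hy]
  have h2 : ∑ y ∈ S, ∑ B ∈ powersetCard l (S.erase y), w B
      = ∑ B ∈ powersetCard l S, ((#S : ℝ) - l) * w B := by
    have h3 : ∀ y ∈ S, ∑ B ∈ powersetCard l (S.erase y), w B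
        = ∑ B ∈ powersetCard l S, if y ∈ B then 0 else w B := by
      intro y hy
      rw [← sum_filter_not_add_sum_filter (powersetCard l S) (fun B => y ∈ B)
        (fun B => if y ∈ B then 0 else w B)]
      have e1 : ∑ B ∈ (powersetCard l S).filter (fun B => y ∈ B), (if y ∈ B then 0 else w B) = 0 :=
        sum_eq_zero fun B hB => by rw [if_pos (mem_filter.1 hB).2]
      rw [e1, add_zero]
      have e2 : (powersetCard l S).filter (fun B => y ∉ B) = powersetCard l (S.erase y) := by
        ext B
        simp only [mem_filter, mem_powersetCard, subset_erase]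
        tauto
      rw [e2]
      refine sum_congr rfl fun B hB => ?_
      rw [mem_powersetCard, subset_erase] at hB
      rw [if_neg hB.1.2]
    rw [sum_congr rfl h3, sum_comm]
    refine sum_congr rfl fun B hB => ?_
    rw [mem_powersetCard] at hB
    rw [← sum_filter_not_add_sum_filter S (fun y => y ∈ B) (fun y => if y ∈ B then 0 else w B)]
    have e1 : ∑ y ∈ S.filter (fun y => y ∈ B), (if y ∈ B then 0 else w B) = 0 :=
      sum_eq_zero fun y hy => by rw [if_pos (mem_filter.1 hy).2]
    rw [e1, add_zero]
    have e2 : ∑ y ∈ S.filter (fun y => y ∉ B), (if y ∈ B then 0 else w B)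
        = ∑ y ∈ S.filter (fun y => y ∉ B), w B :=
      sum_congr rfl fun y hy => by rw [if_neg (mem_filter.1 hy).2]
    rw [e2, sum_const, nsmul_eq_mul]
    have e3 : S.filter (fun y => y ∉ B) = S \ B := by ext y; simp
    rw [e3, cast_card_sdiff hB.1, hB.2]
  rw [h1, h2, ← mul_sum]
  obtain ⟨g, hg⟩ : ∃ g, #S = g + 1 := ⟨#S - 1, by omega⟩
  rw [hg]
  simp only [Nat.add_sub_cancel]
  have h7 : g.choose l * (g + 1) = (g + 1).choose l * (g + 1 - l) := Nat.choose_mul_succ_eq g l
  have h8 : (g.choose l : ℝ) * (g + 1) = ((g + 1).choose l : ℝ) * ((g : ℝ) + 1 - l) := by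
    have h9 := congrArg (Nat.cast (R := ℝ)) h7
    push_cast [Nat.cast_sub (show l ≤ g + 1 by omega)] at h9
    exact h9
  have p1 : (0 : ℝ) < (g.choose l : ℝ) := by exact_mod_cast Nat.choose_pos (by omega)
  have p2 : (0 : ℝ) < ((g + 1).choose l : ℝ) := by exact_mod_cast Nat.choose_pos (by omega)
  push_cast
  rw [div_div, div_eq_div_iff (by positivity) (by positivity)]
  rw [h8]; ring

omit [Fintype α] [DecidableEq α] in
lemma avl_nonneg (l : ℕ) {w : Finset α → ℝ} (hw : ∀ B, 0 ≤ w B) (S : Finset α) : 0 ≤ avl l w S := by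
  unfold avl
  exact div_nonneg (sum_nonneg fun B _ => hw B) (by positivity)

lemma cdn_low {F : Finset (Finset α)} (l : ℕ) {S : Finset α} (hS : #S < l) :
    cdn F (fun A => if l ≤ #A then 1 else 0) S = 0 := by
  induction S using Finset.strongInduction with
  | H S ih =>
    by_cases hF : S ∈ F
    · rw [cdn_mem hF, if_neg (by omega)]
    · rw [cdn_notMem hF, Dop]
      rw [sum_eq_zero, zero_div]
      intro y hy
      exact ih _ (erase_ssubset hy) (lt_of_le_of_lt (card_le_card (erase_subset _ _)) hS)

/-- near pairs -/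
theorem near_le {F : Finset (Finset α)}
    (hF : ∀ A ∈ F, ∀ B ∈ F, ∀ C ∈ F, A ≠ B → A ≠ C → B ≠ C → A ∪ B ≠ C)
    {C : Finset α} (hC : C ∈ F) {l : ℕ} (hl : l < #C) (hl2 : #C ≤ 2 * l) :
    Dop (cdn F fun A => if l ≤ #A then 1 else 0) C ≤ ((#C : ℝ) - l) / #C := by
  classical
  set w : Finset α → ℝ := fun B => if ∃ A ∈ F, A ≠ C ∧ B ⊆ A ∧ A ⊆ C then 1 else 0 with hw
  have hw0 : ∀ B, 0 ≤ w B := fun B => by rw [hw]; dsimp only; split_ifs <;> norm_num
  have key : ∀ S : Finset α, S ⊆ C → S ≠ C → l ≤ #S →
      cdn F (fun A => if l ≤ #A then 1 else 0) S ≤ avl l w S := by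
    intro S
    induction S using Finset.strongInduction with
    | H S ih =>
      intro hSC hne hlS
      by_cases hSF : S ∈ F
      · rw [cdn_mem hSF, if_pos hlS]
        unfold avl
        rw [sum_congr rfl (g := fun _ => (1 : ℝ))]
        · rw [sum_const, card_powersetCard, nsmul_eq_mul, mul_one, div_self]
          exact_mod_cast (Nat.choose_pos hlS).ne'
        · intro B hB
          rw [mem_powersetCard] at hB
          rw [hw]; dsimp only
          rw [if_pos ⟨S, hSF, hne, hB.1, hSC⟩]
      · rw [cdn_notMem hSF]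
        rcases Nat.eq_or_lt_of_le hlS with h | h
        · rw [Dop, sum_eq_zero, zero_div]
          · exact avl_nonneg l hw0 S
          · intro y hy
            apply cdn_low
            rw [card_erase_of_mem hy]
            have := card_pos.2 ⟨y, hy⟩
            omega
        · rw [← Dop_avl l w S h]
          refine Dop_mono fun y hy => ih _ (erase_ssubset hy) ((erase_subset _ _).trans hSC) ?_ ?_
          · intro h'
            have := card_le_card hSC
            rw [← h', card_erase_of_mem hy] at this
            omega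
          · rw [card_erase_of_mem hy]; omega
  calc Dop (cdn F fun A => if l ≤ #A then 1 else 0) C ≤ Dop (avl l w) C := by
        refine Dop_mono fun y hy => key _ (erase_subset _ _) ?_ ?_
        · intro h'
          have := congrArg card h'
          rw [card_erase_of_mem hy] at this
          omega
        · rw [card_erase_of_mem hy]; omega
    _ = avl l w C := Dop_avl l w C hl
    _ ≤ ((#C : ℝ) - l) / #C := by
        unfold avl
        have hp : (0 : ℝ) < ((#C).choose l : ℝ) := by exact_mod_cast Nat.choose_pos hl.le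
        rw [div_le_iff₀ hp]
        have h1 : ∑ B ∈ powersetCard l C, w B
            = (#((powersetCard l C).filter fun B => ∃ A ∈ F, A ≠ C ∧ B ⊆ A ∧ A ⊆ C) : ℝ) := by
          rw [hw, ← sum_filter, sum_const, nsmul_eq_mul, mul_one]
        rw [h1]
        refine Pool.Agent.Helper44.KK.ekr_density _ C l ?_ ?_ hl2 hl
        · intro B hB
          rw [mem_filter, mem_powersetCard] at hB
          exact hB.1
        · intro B hB B' hB' hU
          rw [mem_filter, mem_powersetCard] at hB hB'
          obtain ⟨A, hA, hAC, hBA, hAsub⟩ := hB.2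
          obtain ⟨A', hA', hAC', hBA', hAsub'⟩ := hB'.2
          have hunion : A ∪ A' = C :=
            subset_antisymm (union_subset hAsub hAsub') (hU ▸ union_subset_union hBA hBA')
          have hne : A ≠ A' := by
            rintro rfl
            rw [union_self] at hunion
            exact hAC hunion
          exact hF A hA A' hA' C hC hne hAC hAC' hunion

end Pool.Agent.Helper80.Kl
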