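import Pool.Agent.Helper80.Kl.Bridge

/-! # Kleitman, section 8: the scale inequalities in the form used by the accounting -/

set_option autoImplicit false

namespace Pool.Agent.Helper80.Kl

open Finset Kleitman

variable {n : ℕ}

/-- weighted sum over the family -/
noncomputable def Sm (F : Finset (Finset (Fin n))) (f : Finset (Fin n) → ℝ) : ℝ :=
  ∑ C ∈ F, P C * f C

lemma Sm_add (F : Finset (Finset (Fin n))) (f g : Finset (Fin n) → ℝ) :
    Sm F (fun C => f C + g C) = Sm F f + Sm F g := by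
  unfold Sm; rw [← sum_add_distrib]; exact sum_congr rfl fun C _ => by ring

lemma Sm_sub (F : Finset (Finset (Fin n))) (f g : Finset (Fin n) → ℝ) :
    Sm F (fun C => f C - g C) = Sm F f - Sm F g := by
  unfold Sm; rw [← sum_sub_distrib]; exact sum_congr rfl fun C _ => by ring

lemma Sm_mul (F : Finset (Finset (Fin n))) (r : ℝ) (f : Finset (Fin n) → ℝ) :
    Sm F (fun C => r * f C) = r * Sm F f := by
  unfold Sm; rw [mul_sum]; exact sum_congr rfl fun C _ => by ring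

lemma Sm_sum {ι : Type*} (s : Finset ι) (F : Finset (Finset (Fin n)))
    (f : ι → Finset (Fin n) → ℝ) :
    Sm F (fun C => ∑ i ∈ s, f i C) = ∑ i ∈ s, Sm F (f i) := by
  unfold Sm
  rw [sum_comm]
  exact sum_congr rfl fun C _ => by rw [mul_sum]

lemma Sm_mono {F : Finset (Finset (Fin n))} {f g : Finset (Fin n) → ℝ}
    (h : ∀ C ∈ F, f C ≤ g C) : Sm F f ≤ Sm F g :=
  sum_le_sum fun C hC => mul_le_mul_of_nonneg_left (h C hC) (P_pos C).le

lemma Sm_nonneg {F : Finset (Finset (Fin n))} {f : Finset (Fin n) → ℝ}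
    (h : ∀ C ∈ F, 0 ≤ f C) : 0 ≤ Sm F f :=
  sum_nonneg fun C hC => mul_nonneg (P_pos C).le (h C hC)

/-- probability of no hit strictly above `A` -/
noncomputable def gA (F : Finset (Finset (Fin n))) (A : Finset (Fin n)) : ℝ :=
  1 - Uop (cup F fun _ => 1) A

lemma gA_nonneg (F : Finset (Finset (Fin n))) (A : Finset (Fin n)) : 0 ≤ gA F A := by
  unfold gA
  have := Uop_le_const (S := A) (f := cup F fun _ => 1) zero_le_one
    (fun v _ => cup_le_one (fun _ _ => le_rfl) _)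
  linarith

lemma gA_le_one (F : Finset (Finset (Fin n))) (A : Finset (Fin n)) : gA F A ≤ 1 := by
  unfold gA
  have := Uop_nonneg (S := A) (f := cup F fun _ => 1)
    (fun v _ => cup_nonneg (fun _ _ => zero_le_one) _)
  linarith

/-- contribution of a member to the bound of `P0` -/
noncomputable def hh (F : Finset (Finset (Fin n))) (s1 s2 : ℕ) (A : Finset (Fin n)) : ℝ :=
  (∑ s ∈ Ico (s1 + 1) (s2 + 1), if Gs s A then gA F A else 0)
    + (if n / 2 + 2 ^ (s1 + 1) < #A then 1 else 0)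

/-- bound for `P0` of every window -/
noncomputable def Pib (F : Finset (Finset (Fin n))) (s1 s2 : ℕ) : ℝ :=
  (1 - cdn F (fun _ => 1) univ) + Sm F (hh F s1 s2)

lemma hh_nonneg (F : Finset (Finset (Fin n))) (s1 s2 : ℕ) (A : Finset (Fin n)) :
    0 ≤ hh F s1 s2 A := by
  unfold hh
  refine add_nonneg (sum_nonneg fun s _ => ?_) ?_
  · split_ifs
    · exact gA_nonneg F A
    · exact le_rfl
  · split_ifs <;> norm_num

lemma Pib_nonneg (F : Finset (Finset (Fin n))) (s1 s2 : ℕ) : 0 ≤ Pib F s1 s2 := by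
  unfold Pib
  have h1 := cdn_le_one (F := F) (φ := fun _ => 1) (fun _ _ => le_rfl) univ
  have h2 := Sm_nonneg (F := F) (f := hh F s1 s2) (fun A _ => hh_nonneg F s1 s2 A)
  linarith

theorem P0_le {F : Finset (Finset (Fin n))} {s1 s2 R : ℕ} (hR : 2 ^ (s1 + 1) ≤ R)
    (hwin : ∀ A ∈ F, n / 2 < #A + 2 ^ (s2 + 1)) :
    1 - cdn (win F R) (fun _ => 1) univ ≤ Pib F s1 s2 := by
  have hW : win F R ⊆ F := filter_subset _ _
  have h1 := cdn_sub hW univ
  have h2 : cdn F (fun _ => (1 : ℝ)) univ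
      = cdn F (fun A => if A ∈ win F R then 1 else 0) univ
        + cdn F (fun A => if A ∈ win F R then 0 else 1) univ := by
    rw [← cdn_add]
    congr 1
    funext A
    split_ifs <;> norm_num
  have h3 : cdn F (fun A => if A ∈ win F R then 0 else 1) univ ≤ Sm F (hh F s1 s2) := by
    rw [cdn_univ']
    refine sum_le_sum fun A hA => mul_le_mul_of_nonneg_left ?_ (P_pos A).le
    show (if A ∈ win F R then 0 else 1) * gA F A ≤ _
    by_cases h : A ∈ win F R
    · rw [if_pos h, zero_mul]; exact hh_nonneg F s1 s2 A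
    · rw [if_neg h, one_mul]
      unfold hh
      have hs : ∀ s ∈ Ico (s1 + 1) (s2 + 1), 0 ≤ (if Gs s A then gA F A else 0) := fun s _ => by
        split_ifs
        · exact gA_nonneg F A
        · exact le_rfl
      by_cases h' : n / 2 + 2 ^ (s1 + 1) < #A
      · rw [if_pos h']
        have := sum_nonneg hs
        linarith [gA_le_one F A]
      · rw [if_neg h', add_zero]
        unfold win at h
        rw [mem_filter] at h
        have hlow : #A + R ≤ n / 2 := by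
          by_contra hc
          exact h ⟨hA, by omega, by omega⟩
        have hne : n / 2 - #A ≠ 0 := by
          have : 0 < 2 ^ (s1 + 1) := by positivity
          omega
        have hwA := hwin A hA
        have e1 := Nat.pow_log_le_self 2 hne
        have e2 := Nat.lt_pow_succ_log_self (b := 2) (by norm_num) (n / 2 - #A)
        have hmem : Nat.log 2 (n / 2 - #A) ∈ Ico (s1 + 1) (s2 + 1) := by
          set s := Nat.log 2 (n / 2 - #A) with hs
          rw [Nat.succ_eq_add_one, pow_succ] at e2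
          rw [mem_Ico]
          constructor
          · by_contra hc
            push Not at hc
            have : 2 ^ (s + 1) ≤ 2 ^ (s1 + 1) := Nat.pow_le_pow_right (by norm_num) (by omega)
            rw [pow_succ] at this
            omega
          · by_contra hc
            push Not at hc
            have : 2 ^ (s2 + 1) ≤ 2 ^ s := Nat.pow_le_pow_right (by norm_num) hc
            omega
        have hG : Gs (Nat.log 2 (n / 2 - #A)) A := by
          rw [Nat.succ_eq_add_one, pow_succ] at e2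
          unfold Gs
          omega
        have := single_le_sum hs hmem
        rw [if_pos hG] at this
        exact this
  unfold Pib
  linarith

/-- the `κ`-coefficient -/
noncomputable def kc (R s : ℕ) (C : Finset (Fin n)) : ℝ :=
  if (n / 2 < #C + R ∧ #C ≤ n / 2 + R) ∧ ¬ Bs s C then ((2 : ℝ) ^ s + dst C) / n else 0

lemma kc_nonneg (R s : ℕ) (C : Finset (Fin n)) : 0 ≤ kc R s C := by
  unfold kc
  split_ifs
  · positivity
  · exact le_rfl

/-- in-scales -/
theorem in_scale (hML : ML n) (hn : 10 ^ 60 ≤ n) {F : Finset (Finset (Fin n))}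
    (hF : ∀ A ∈ F, ∀ B ∈ F, ∀ C ∈ F, A ≠ B → A ≠ C → B ≠ C → A ∪ B ≠ C)
    {s s1 s2 : ℕ} (hs : 14 ≤ s) (hs1 : s ≤ s1) (hs2 : s1 ≤ s2)
    (hR' : (5 * 2 ^ (s2 + 1)) ^ 5 ≤ n ^ 3) (hwin : ∀ A ∈ F, n / 2 < #A + 2 ^ (s2 + 1)) :
    Sm F (Xc F s) ≤
      Sm F (fun C => (51 / 10) * ((2 : ℝ) ^ s * (2 ^ s / 1000) / n) * (if Gs s C then 1 else 0)
        + 10 ^ 12 * kc (2 ^ (s1 + 1)) s C)
      + 10 ^ 12 * ((2 : ℝ) ^ s * 2 ^ (s1 + 1) / (n : ℝ) ^ 2 + 10 ^ 6 / (n * 2 ^ s))
      + 10 ^ 12 * (5 * 2 ^ (s1 + 1) / n + 1000 / 2 ^ s) * Pib F s1 s2 := by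
  have hn0 : (0 : ℝ) < n := by
    have : 0 < n := lt_of_lt_of_le (by norm_num) hn
    exact_mod_cast this
  have h2s : (0 : ℝ) < 2 ^ s := by positivity
  have hK : (10 : ℝ) ≤ 2 ^ s / 1000 := by
    have : (2 : ℝ) ^ 14 ≤ 2 ^ s := pow_le_pow_right₀ (by norm_num) hs
    linarith
  have hmono : (5 * 2 ^ (s1 + 1)) ^ 5 ≤ n ^ 3 :=
    (Nat.pow_le_pow_left (Nat.mul_le_mul_left 5 (Nat.pow_le_pow_right (by norm_num) (by omega))) 5).trans hR'
  have h := scale_ineq hML hn hF (s := s) (R := 2 ^ (s1 + 1)) (by omega) (by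
    rw [pow_succ, mul_comm]
    exact Nat.mul_le_mul_right 2 (Nat.pow_le_pow_right (by norm_num) hs1)) hmono hK
  have hP := P0_le (F := F) (s1 := s1) (s2 := s2) (R := 2 ^ (s1 + 1)) le_rfl hwin
  set P0 := 1 - cdn (win F (2 ^ (s1 + 1))) (fun _ => 1) univ with hP0
  rw [Sm_add, Sm_mul, Sm_mul]
  have e1 : Sm F (fun C => if Gs s C then 1 else 0) = ∑ A ∈ F, P A * (if Gs s A then 1 else 0) := rfl
  have e2 : Sm F (fun C => kc (2 ^ (s1 + 1)) s C) = ∑ C ∈ F, P C *
      (if (n / 2 < #C + 2 ^ (s1 + 1) ∧ #C ≤ n / 2 + 2 ^ (s1 + 1)) ∧ ¬ Bs s C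
            then ((2 : ℝ) ^ s + dst C) / n else 0) := rfl
  rw [← e1, ← e2] at h
  have h3 : 10 ^ 12 * (5 * (2 : ℝ) ^ (s1 + 1) / n + 1000 / 2 ^ s) * P0
      ≤ 10 ^ 12 * (5 * (2 : ℝ) ^ (s1 + 1) / n + 1000 / 2 ^ s) * Pib F s1 s2 :=
    mul_le_mul_of_nonneg_left hP (by positivity)
  unfold Sm at h ⊢
  refine h.trans ?_
  have e3 : P0 / ((2 : ℝ) ^ s / 1000) = 1000 / 2 ^ s * P0 := by field_simp
  have e4 : (2 : ℝ) ^ s / (n * (2 ^ s / 1000) ^ 2) = 10 ^ 6 / (n * 2 ^ s) := by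
    field_simp
    norm_num
  rw [e3, e4]
  push_cast at *
  linarith

/-- deep scales -/
theorem deep_scale (hML : ML n) (hn : 10 ^ 60 ≤ n) {F : Finset (Finset (Fin n))}
    (hF : ∀ A ∈ F, ∀ B ∈ F, ∀ C ∈ F, A ≠ B → A ≠ C → B ≠ C → A ∪ B ≠ C)
    {s s1 s2 : ℕ} (hs : 12 ≤ s) (hs1 : s1 < s) (hs2 : s ≤ s2)
    (hR' : (5 * 2 ^ (s2 + 1)) ^ 5 ≤ n ^ 3) (hwin : ∀ A ∈ F, n / 2 < #A + 2 ^ (s2 + 1))
    (h1000 : 1000 * 2 ^ s ≤ n) {t : ℝ} (ht0 : 0 ≤ t) (ht1 : t ≤ 1) :
    Sm F (Xc F s) ≤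
      Sm F (fun C => (if Gs s C then (1 - t) * (1 - gA F C) + 51 / 1000 * t else 0)
        + 10 ^ 12 * t * kc (2 ^ (s + 1)) s C)
      + 10 ^ 12 * t * (2 * 4 ^ s / (n : ℝ) ^ 2 + 10 ^ 4 * 8 ^ s / (n : ℝ) ^ 3)
      + 10 ^ 12 * t * (110 * 2 ^ s / n) * Pib F s1 s2 := by
  have hn0 : (0 : ℝ) < n := by
    have : 0 < n := lt_of_lt_of_le (by norm_num) hn
    exact_mod_cast this
  have h2s : (0 : ℝ) < 2 ^ s := by positivity
  have hK : (10 : ℝ) ≤ n / (100 * 2 ^ s) := by
    rw [le_div_iff₀ (by positivity)]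
    have : ((1000 * 2 ^ s : ℕ) : ℝ) ≤ n := by exact_mod_cast h1000
    push_cast at this
    linarith
  have hmono : (5 * 2 ^ (s + 1)) ^ 5 ≤ n ^ 3 :=
    (Nat.pow_le_pow_left (Nat.mul_le_mul_left 5 (Nat.pow_le_pow_right (by norm_num) (by omega))) 5).trans hR'
  have h := scale_ineq hML hn hF (s := s) (R := 2 ^ (s + 1)) (by omega) (by
    rw [pow_succ, mul_comm]) hmono hK
  have hP := P0_le (F := F) (s1 := s1) (s2 := s2) (R := 2 ^ (s + 1))
    (Nat.pow_le_pow_right (by norm_num) (by omega)) hwin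
  set P0 := 1 - cdn (win F (2 ^ (s + 1))) (fun _ => 1) univ with hP0
  have e1 : Sm F (fun C => if Gs s C then 1 else 0) = ∑ A ∈ F, P A * (if Gs s A then 1 else 0) := rfl
  have e2 : Sm F (fun C => kc (2 ^ (s + 1)) s C) = ∑ C ∈ F, P C *
      (if (n / 2 < #C + 2 ^ (s + 1) ∧ #C ≤ n / 2 + 2 ^ (s + 1)) ∧ ¬ Bs s C
            then ((2 : ℝ) ^ s + dst C) / n else 0) := rfl
  rw [← e1, ← e2] at h
  have e0 : ∑ C ∈ F, P C * Xc F s C = Sm F (Xc F s) := rfl
  rw [e0] at h
  -- consecutive pairs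
  have hc := cons_add_top_le F (univ.filter fun A => Gs s A) (univ.filter fun C => Bs s C)
  have hc' : Sm F (Xc F s) ≤ Sm F (fun C => if Gs s C then 1 - gA F C else 0) := by
    have f1 : ∑ C ∈ F, P C * ((if C ∈ univ.filter (fun C => Bs s C) then 1 else 0)
        * Dop (cdn F fun A => if A ∈ univ.filter (fun A => Gs s A) then 1 else 0) C)
        = Sm F (Xc F s) := by
      unfold Sm Xc
      refine sum_congr rfl fun C _ => ?_
      simp only [mem_filter, mem_univ, true_and]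
      split_ifs <;> ring
    have f2 : ∑ A ∈ F, P A * ((if A ∈ univ.filter (fun A => Gs s A) then 1 else 0)
        * (1 - Uop (cup F fun _ => 1) A)) = Sm F (fun C => if Gs s C then gA F C else 0) := by
      unfold Sm gA
      refine sum_congr rfl fun C _ => ?_
      simp only [mem_filter, mem_univ, true_and]
      split_ifs <;> ring
    have f3 : ∑ A ∈ F, P A * (if A ∈ univ.filter (fun A => Gs s A) then (1 : ℝ) else 0)
        = Sm F (fun C => if Gs s C then 1 else 0) := by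
      unfold Sm
      refine sum_congr rfl fun C _ => ?_
      simp only [mem_filter, mem_univ, true_and]
    rw [f1, f2, f3] at hc
    have f4 : Sm F (fun C => if Gs s C then 1 - gA F C else 0)
        = Sm F (fun C => if Gs s C then 1 else 0) - Sm F (fun C => if Gs s C then gA F C else 0) := by
      rw [← Sm_sub]
      congr 1
      funext C
      split_ifs <;> ring
    linarith
  have hsplit : Sm F (fun C => (if Gs s C then (1 - t) * (1 - gA F C) + 51 / 1000 * t else 0)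
        + 10 ^ 12 * t * kc (2 ^ (s + 1)) s C)
      = (1 - t) * Sm F (fun C => if Gs s C then 1 - gA F C else 0)
        + 51 / 1000 * t * Sm F (fun C => if Gs s C then 1 else 0)
        + 10 ^ 12 * t * Sm F (fun C => kc (2 ^ (s + 1)) s C) := by
    rw [← Sm_mul, ← Sm_mul, ← Sm_mul, ← Sm_add, ← Sm_add]
    congr 1
    funext C
    split_ifs <;> ring
  rw [hsplit]
  have h5 : (1 - t) * Sm F (Xc F s) ≤ (1 - t) * Sm F (fun C => if Gs s C then 1 - gA F C else 0) :=
    mul_le_mul_of_nonneg_left hc' (by linarith)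
  have h6 := mul_le_mul_of_nonneg_left h ht0
  have h7 : t * (10 ^ 12 * (110 * 2 ^ s / n) * P0) ≤ t * (10 ^ 12 * (110 * 2 ^ s / n) * Pib F s1 s2) :=
    mul_le_mul_of_nonneg_left (mul_le_mul_of_nonneg_left hP (by positivity)) ht0
  have e3 : P0 / ((n : ℝ) / (100 * 2 ^ s)) = 100 * 2 ^ s / n * P0 := by field_simp
  have e4 : (2 : ℝ) ^ s / (n * (n / (100 * 2 ^ s)) ^ 2) = 10 ^ 4 * 8 ^ s / (n : ℝ) ^ 3 := by
    rw [show (8 : ℝ) ^ s = 2 ^ s * 2 ^ s * 2 ^ s by rw [← mul_pow, ← mul_pow]; norm_num]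
    field_simp
    norm_num
  have e5 : (2 : ℝ) ^ s * ((2 ^ (s + 1) : ℕ) : ℝ) / (n : ℝ) ^ 2 = 2 * 4 ^ s / (n : ℝ) ^ 2 := by
    rw [show (4 : ℝ) ^ s = 2 ^ s * 2 ^ s by rw [← mul_pow]; norm_num]
    push_cast
    ring
  have e6 : (51 / 10 : ℝ) * ((2 : ℝ) ^ s * (n / (100 * 2 ^ s)) / n) = 51 / 1000 := by
    field_simp
    norm_num
  have e7 : 5 * ((2 ^ (s + 1) : ℕ) : ℝ) / n * P0 = 10 * 2 ^ s / n * P0 := by
    push_cast
    ring
  rw [e3, e4, e5, e6, e7] at h6
  have e8 : t * (10 ^ 12 * (110 * (2 : ℝ) ^ s / n) * P0)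
      = t * (10 ^ 12 * (10 * 2 ^ s / n * P0 + 100 * 2 ^ s / n * P0)) := by ring
  linarith

end Pool.Agent.Helper80.Kl
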