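import Pool.Agent.Helper80.Kl.Coef

/-! # Kleitman, section 8: the bound for families in a window -/

set_option autoImplicit false

namespace Pool.Agent.Helper80.Kl

open Finset Kleitman

variable {n : ℕ}

/-- the window hypothesis -/
def InWin (F : Finset (Finset (Fin n))) (s2 : ℕ) : Prop :=
  ∀ A ∈ F, n / 2 < #A + 2 ^ (s2 + 1) ∧ #A ≤ n / 2 + 2 ^ (s2 + 1)

lemma Par.small {s0 s1 s2 : ℕ} {D : ℝ} (h : Par n s0 s1 s2 D) :
    10 ^ 20 * 2 ^ (s2 + 1) ≤ n := by
  have h1 := h.DL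
  have h2 := h.hD
  have h3 : (10 : ℝ) ^ 20 * 2 ^ (s2 + 1) ≤ n := by
    calc (10 : ℝ) ^ 20 * 2 ^ (s2 + 1) = 10 ^ 20 * 1 * 2 ^ (s2 + 1) := by ring
      _ ≤ 10 ^ 20 * D * 2 ^ (s2 + 1) := by
        apply mul_le_mul_of_nonneg_right _ (by positivity)
        linarith
      _ ≤ n := h1
  exact_mod_cast h3

lemma sz {s0 s1 s2 : ℕ} {D : ℝ} (h : Par n s0 s1 s2 D) {C : Finset (Fin n)}
    (hC : n / 2 < #C + 2 ^ (s2 + 1)) : (n : ℝ) / 4 ≤ #C := by
  have h1 := h.small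
  have h2 : n ≤ 4 * #C := by
    have : 10 ^ 20 * 1 ≤ 10 ^ 20 * 2 ^ (s2 + 1) := Nat.mul_le_mul_left _ Nat.one_le_two_pow
    generalize 2 ^ (s2 + 1) = L at *
    norm_num at *
    omega
  have h3 : (n : ℝ) ≤ 4 * #C := by exact_mod_cast h2
  linarith

/-- the mass is at most 2 -/
theorem mass_le_two {s0 s1 s2 : ℕ} {D : ℝ} (h : Par n s0 s1 s2 D) {F : Finset (Finset (Fin n))}
    (hF : ∀ A ∈ F, ∀ B ∈ F, ∀ C ∈ F, A ≠ B → A ≠ C → B ≠ C → A ∪ B ≠ C) (hw : InWin F s2) :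
    Sm F (fun _ => 1) ≤ 2 := by
  have hid := mass_identity F
  have e1 : ∑ C ∈ F, P C = Sm F (fun _ => 1) := by
    unfold Sm; exact sum_congr rfl fun C _ => by ring
  have e2 : ∑ C ∈ F, P C * Dop (cdn F fun _ => 1) C = Sm F (Dop (cdn F fun _ => 1)) := rfl
  rw [e1, e2] at hid
  have hsm := h.small
  have h1 : Sm F (Dop (cdn F fun _ => 1)) ≤ Sm F (fun _ => 1 / 2 * 1) := by
    refine Sm_mono fun C hC => ?_
    have hwC := hw C hC
    have hszC := sz h hwC.1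
    set L := 2 ^ (s2 + 1) with hL
    have hLpos : 0 < L := by positivity
    have hn4 : 10 * L ≤ n / 2 := by norm_num at hsm; omega
    have h2 := near_le hF hC (l := n / 2 - L) (by omega) (by omega)
    have h3 : Dop (cdn F fun _ => 1) C ≤ Dop (cdn F fun A => if n / 2 - L ≤ #A then 1 else 0) C := by
      refine Dop_mono fun y _ => cdn_mono (fun A hA => ?_) _
      have := hw A hA
      rw [if_pos (by omega)]
    refine h3.trans (h2.trans ?_)
    have hC0 : (0 : ℝ) < #C := by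
      have : 0 < #C := by omega
      exact_mod_cast this
    rw [mul_one, div_le_div_iff₀ hC0 (by norm_num)]
    have h4 : ((#C : ℕ) : ℝ) ≤ ((n / 2 + L : ℕ) : ℝ) := Nat.cast_le.2 hwC.2
    have h5 : (((n / 2 - L : ℕ)) : ℝ) = ((n / 2 : ℕ) : ℝ) - L := Nat.cast_sub (by omega)
    have h6 : ((10 * L : ℕ) : ℝ) ≤ ((n / 2 : ℕ) : ℝ) := Nat.cast_le.2 hn4
    have h7 : ((n / 2 : ℕ) : ℝ) ≤ ((#C + L : ℕ) : ℝ) := Nat.cast_le.2 (by omega)
    push_cast at h4 h6 h7
    rw [h5]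
    push_cast
    linarith
  rw [Sm_mul] at h1
  have h2 := cdn_le_one (F := F) (φ := fun _ => 1) (fun _ _ => le_rfl) univ
  linarith

/-- the bound for the expected number of hits below -/
theorem r_le (hML : ML n) (hn : 10 ^ 60 ≤ n) {s0 s1 s2 : ℕ} {D : ℝ} (h : Par n s0 s1 s2 D)
    (hR' : (5 * 2 ^ (s2 + 1)) ^ 5 ≤ n ^ 3) {F : Finset (Finset (Fin n))}
    (hF : ∀ A ∈ F, ∀ B ∈ F, ∀ C ∈ F, A ≠ B → A ≠ C → B ≠ C → A ∪ B ≠ C) (hw : InWin F s2) :
    Sm F (Dop (cdn F fun _ => 1)) ≤ Sm F (coef F s0 s1 s2 D)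
      + 1 / 2 * (1 - cdn F (fun _ => 1) univ) + 10 ^ 20 / n := by
  have hn0 := h.hn
  have hsm := h.small
  have hwl : ∀ A ∈ F, n / 2 < #A + 2 ^ (s2 + 1) := fun A hA => (hw A hA).1
  have hs0 := h.hs0
  have h01 := h.h01
  have h12 := h.h12
  -- splitting
  have h1 : Sm F (Dop (cdn F fun _ => 1)) ≤ Sm F (fun C => (jn s0 C : ℝ) / #C
      + ∑ s ∈ Ico s0 (s2 + 1), Xc F s C) := by
    refine Sm_mono fun C hC => dop_split hF hwl hC ?_
    have hwC := hw C hC
    have h2 : 2 ^ s0 ≤ 2 ^ (s2 + 1) := Nat.pow_le_pow_right (by norm_num) (by omega)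
    have hszC := sz h hwC.1
    have h3 : n ≤ 4 * #C := by
      have : (n : ℝ) ≤ 4 * #C := by linarith
      exact_mod_cast this
    unfold jn dst
    norm_num at hsm
    omega
  rw [Sm_add, Sm_sum, ← sum_Ico_consecutive _ (show s0 ≤ s1 + 1 by omega) (show s1 + 1 ≤ s2 + 1 by omega)] at h1
  have h2 : ∀ s ∈ Ico s0 (s1 + 1), Sm F (Xc F s) ≤
      Sm F (fun C => (51 / 10) * ((2 : ℝ) ^ s * (2 ^ s / 1000) / n) * (if Gs s C then 1 else 0)
        + 10 ^ 12 * kc (2 ^ (s1 + 1)) s C)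
      + 10 ^ 12 * ((2 : ℝ) ^ s * 2 ^ (s1 + 1) / (n : ℝ) ^ 2 + 10 ^ 6 / (n * 2 ^ s))
      + 10 ^ 12 * (5 * 2 ^ (s1 + 1) / n + 1000 / 2 ^ s) * Pib F s1 s2 := by
    intro s hs
    rw [mem_Ico] at hs
    exact in_scale hML hn hF (by omega) (by omega) h12 hR' hwl
  have h3 : ∀ s ∈ Ico (s1 + 1) (s2 + 1), Sm F (Xc F s) ≤
      Sm F (fun C => (if Gs s C then (1 - tt n D s) * (1 - gA F C) + 51 / 1000 * tt n D s else 0)
        + 10 ^ 12 * tt n D s * kc (2 ^ (s + 1)) s C)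
      + 10 ^ 12 * tt n D s * (2 * 4 ^ s / (n : ℝ) ^ 2 + 10 ^ 4 * 8 ^ s / (n : ℝ) ^ 3)
      + 10 ^ 12 * tt n D s * (110 * 2 ^ s / n) * Pib F s1 s2 := by
    intro s hs
    rw [mem_Ico] at hs
    have t1 := h.A6 (s := s) hs.1 (by omega)
    have t0 := h.tt_nonneg s
    refine deep_scale hML hn hF (by omega) (by omega) (by omega) hR' hwl ?_ t0 (by linarith)
    have : 2 ^ s ≤ 2 ^ (s2 + 1) := Nat.pow_le_pow_right (by norm_num) (by omega)
    norm_num at hsm
    omega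
  have h4 := sum_le_sum h2
  have h5 := sum_le_sum h3
  rw [sum_add_distrib, sum_add_distrib, ← sum_mul] at h4 h5
  have hA1 := h.A1
  have hA2 := h.A2
  have hA3 := h.A3
  have hA4 := h.A4
  have hPi := Pib_nonneg F s1 s2
  have h6 := mul_le_mul_of_nonneg_right hA2 hPi
  have h7 := mul_le_mul_of_nonneg_right hA4 hPi
  have hc : Sm F (coef F s0 s1 s2 D) = Sm F (fun C => (jn s0 C : ℝ) / #C)
      + Sm F (fun C => ∑ s ∈ Ico s0 (s1 + 1), ((51 / 10) * ((2 : ℝ) ^ s * (2 ^ s / 1000) / n) *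
        (if Gs s C then 1 else 0) + 10 ^ 12 * kc (2 ^ (s1 + 1)) s C))
      + Sm F (fun C => ∑ s ∈ Ico (s1 + 1) (s2 + 1),
      ((if Gs s C then (1 - tt n D s) * (1 - gA F C) + 51 / 1000 * tt n D s else 0)
        + 10 ^ 12 * tt n D s * kc (2 ^ (s + 1)) s C))
      + 1 / 2 * Sm F (hh F s1 s2) := by
    rw [← Sm_mul, ← Sm_add, ← Sm_add, ← Sm_add]
    rfl
  have hPib : Pib F s1 s2 = (1 - cdn F (fun _ => 1) univ) + Sm F (hh F s1 s2) := rfl
  have hfin : (10 : ℝ) ^ 19 / n + 10 ^ 18 / n ≤ 10 ^ 20 / n := by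
    rw [← add_div]
    exact div_le_div_of_nonneg_right (by norm_num) hn0.le
  rw [Sm_sum, Sm_sum] at hc
  rw [hc]
  linarith

/-- penalty versus quadratic -/
lemma pen {x nn : ℝ} (hn : 0 < nn) (h0 : 0 ≤ x) (h : x ≤ 16 * nn) :
    x / (32 * nn) ≤ min (x / nn) 1 / 2 := by
  rw [le_div_iff₀ (by norm_num), le_min_iff]
  constructor
  · rw [div_mul_eq_mul_div, div_le_div_iff₀ (by positivity) hn]; nlinarith
  · rw [div_mul_eq_mul_div, div_le_one (by positivity)]; linarith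

/-- the coefficient inequality for all members -/
theorem coef_le {s0 s1 s2 : ℕ} {D : ℝ} (h : Par n s0 s1 s2 D) (hD : 10 ^ 15 ≤ D)
    {F : Finset (Finset (Fin n))} (hw : InWin F s2) {C : Finset (Fin n)} (hC : C ∈ F) :
    coef F s0 s1 s2 D C ≤ (1 - wt n #C) + (8 * 2 ^ s0 + 10 ^ 30) / n := by
  have hn0 := h.hn
  have hwC := hw C hC
  have hszC := sz h hwC.1
  have hpos : 0 ≤ (8 * (2 : ℝ) ^ s0 + 10 ^ 30) / n := by positivity
  have hp := Nat.two_pow_pos (s1 + 1)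
  have hsm := h.small
  have h16 : ((2 : ℝ) ^ (s1 + 1)) ^ 2 ≤ 16 * n := by
    have := h.h4l
    calc ((2 : ℝ) ^ (s1 + 1)) ^ 2 = 4 ^ (s1 + 1) := by rw [← pow_mul, mul_comm, pow_mul]; norm_num
      _ = 4 * 4 ^ s1 := by rw [pow_succ]; ring
      _ ≤ _ := by linarith
  have h4n : 4 * (n : ℝ) < ((2 : ℝ) ^ (s1 + 1)) ^ 2 := by
    have := h.h4u
    calc 4 * (n : ℝ) < 4 ^ (s1 + 1) := this
      _ = ((2 : ℝ) ^ (s1 + 1)) ^ 2 := by
        rw [show ((2 : ℝ) ^ (s1 + 1)) ^ 2 = (2 ^ 2) ^ (s1 + 1) by rw [← pow_mul, mul_comm, pow_mul]]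
        norm_num
  have hcn : #C ≤ n := by
    have := card_le_univ C
    rwa [Fintype.card_fin] at this
  rcases le_total #C (n / 2) with hle | hle
  · -- below the middle
    have hd : #C = n / 2 - dst C := by unfold dst; omega
    have hdle : dst C ≤ n / 2 := by unfold dst; omega
    by_cases hin : n / 2 < #C + 2 ^ (s1 + 1)
    · refine coef_in h hszC hin (by omega) ?_
      have h1 := penalty_low n (dst C) hdle
      rw [← hd] at h1
      have hd2 : (dst C : ℝ) ≤ 2 ^ (s1 + 1) := by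
        have : dst C ≤ 2 ^ (s1 + 1) := by unfold dst; omega
        exact_mod_cast this
      have hd0 : (0 : ℝ) ≤ dst C := by positivity
      have h2 : (dst C : ℝ) ^ 2 ≤ 16 * n := by nlinarith
      have h3 := pen hn0 (by positivity) h2
      have h4 : ((dst C : ℝ) ^ 2 - dst C) / (32 * n) ≤ (dst C : ℝ) ^ 2 / (32 * n) :=
        div_le_div_of_nonneg_right (by linarith) (by positivity)
      linarith
    · have h1 := wt_low n (dst C) hdle
      rw [← hd] at h1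
      have hd2 : (2 : ℝ) ^ (s1 + 1) ≤ dst C := by
        have : 2 ^ (s1 + 1) ≤ dst C := by unfold dst; omega
        exact_mod_cast this
      have hx : 4 ≤ (dst C : ℝ) ^ 2 / n := by
        rw [le_div_iff₀ hn0]
        nlinarith [show (0 : ℝ) < 2 ^ (s1 + 1) by positivity]
      have hexp : Real.exp (-((dst C : ℝ) ^ 2 / n)) ≤ 1 / 2 := by
        refine (exp_neg_le_sq (by linarith)).trans ?_
        rw [div_le_div_iff₀ (by positivity) (by norm_num)]
        nlinarith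
      have := coef_deep (F := F) h hD hszC (by omega) hwC.1 (q := 1 - wt n #C) (by linarith)
        (by linarith)
      linarith
  · have hd : #C = n / 2 + dst C := by unfold dst; omega
    by_cases hin : #C ≤ n / 2 + 2 ^ (s1 + 1)
    · refine coef_in h hszC (by omega) hin ?_
      have h1 := penalty_high n (dst C) (by omega)
      rw [← hd] at h1
      have hd2 : (dst C : ℝ) ≤ 2 ^ (s1 + 1) := by
        have : dst C ≤ 2 ^ (s1 + 1) := by unfold dst; omega
        exact_mod_cast this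
      have hd0 : (0 : ℝ) ≤ dst C := by positivity
      have h2 : (dst C : ℝ) * (dst C - 1) ≤ 16 * n := by nlinarith
      have h3 : 0 ≤ (dst C : ℝ) * (dst C - 1) := by
        rcases Nat.eq_zero_or_pos (dst C) with h0 | h0
        · rw [h0]; simp
        · have : (1 : ℝ) ≤ dst C := by exact_mod_cast h0
          exact mul_nonneg hd0 (by linarith)
      have h4 := pen hn0 h3 h2
      have h5 : ((dst C : ℝ) ^ 2 - dst C) = (dst C : ℝ) * (dst C - 1) := by ring
      rw [h5]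
      linarith
    · have h1 := wt_high n (dst C) (by omega)
      rw [← hd] at h1
      have hd2 : (2 : ℝ) ^ (s1 + 1) + 1 ≤ dst C := by
        have : 2 ^ (s1 + 1) + 1 ≤ dst C := by unfold dst; omega
        exact_mod_cast this
      have hx : 4 ≤ (dst C : ℝ) * (dst C - 1) / n := by
        rw [le_div_iff₀ hn0]
        nlinarith [show (0 : ℝ) < 2 ^ (s1 + 1) by positivity]
      have hexp : Real.exp (-((dst C : ℝ) * (dst C - 1) / n)) ≤ 1 / 8 := by
        refine (exp_neg_le_sq (by linarith)).trans ?_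
        rw [div_le_div_iff₀ (by positivity) (by norm_num)]
        nlinarith
      have := coef_high (F := F) (s0 := s0) h hD hszC (by omega) hwC.2
      linarith

/-- the bound for a family in the window -/
theorem window_bound (hML : ML n) (hn : 10 ^ 60 ≤ n) {s0 s1 s2 : ℕ} {D : ℝ}
    (h : Par n s0 s1 s2 D) (hD : 10 ^ 15 ≤ D) (hR' : (5 * 2 ^ (s2 + 1)) ^ 5 ≤ n ^ 3)
    {F : Finset (Finset (Fin n))}
    (hF : ∀ A ∈ F, ∀ B ∈ F, ∀ C ∈ F, A ≠ B → A ≠ C → B ≠ C → A ∪ B ≠ C) (hw : InWin F s2) :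
    (#F : ℝ) ≤ (n.choose (n / 2) : ℝ) * (1 + (16 * 2 ^ s0 + 10 ^ 31) / n) := by
  have hn0 := h.hn
  have hM := mid_pos n
  have h1 : (#F : ℝ) = (n.choose (n / 2) : ℝ) * Sm F (fun C => wt n #C) := by
    unfold Sm
    rw [mul_sum, card_eq_sum_ones, Nat.cast_sum]
    refine sum_congr rfl fun C _ => ?_
    unfold P wt
    rw [Fintype.card_fin]
    have hc : (0 : ℝ) < (n.choose #C : ℝ) := by
      have := card_le_univ C
      rw [Fintype.card_fin] at this
      exact_mod_cast Nat.choose_pos this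
    field_simp
    norm_num
  rw [h1]
  refine mul_le_mul_of_nonneg_left ?_ hM.le
  have hid := mass_identity F
  have e1 : ∑ C ∈ F, P C = Sm F (fun _ => 1) := by
    unfold Sm; exact sum_congr rfl fun C _ => by ring
  have e2 : ∑ C ∈ F, P C * Dop (cdn F fun _ => 1) C = Sm F (Dop (cdn F fun _ => 1)) := rfl
  rw [e1, e2] at hid
  have h2 := r_le hML hn h hR' hF hw
  have h3 : Sm F (coef F s0 s1 s2 D)
      ≤ Sm F (fun C => (1 - wt n #C) + (8 * 2 ^ s0 + 10 ^ 30) / n * 1) := by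
    refine Sm_mono fun C hC => ?_
    rw [mul_one]
    exact coef_le h hD hw hC
  rw [Sm_add, Sm_sub, Sm_mul] at h3
  have h4 := mass_le_two h hF hw
  have h5 := cdn_le_one (F := F) (φ := fun _ => 1) (fun _ _ => le_rfl) univ
  have h6 : (8 * (2 : ℝ) ^ s0 + 10 ^ 30) / n * Sm F (fun _ => 1) ≤ (8 * 2 ^ s0 + 10 ^ 30) / n * 2 :=
    mul_le_mul_of_nonneg_left h4 (by positivity)
  have h7 : (8 * (2 : ℝ) ^ s0 + 10 ^ 30) / n * 2 + 10 ^ 20 / n ≤ (16 * 2 ^ s0 + 10 ^ 31) / n := by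
    rw [div_mul_eq_mul_div, ← add_div]
    refine div_le_div_of_nonneg_right ?_ hn0.le
    have : (0 : ℝ) < 2 ^ s0 := by positivity
    linarith
  linarith

end Pool.Agent.Helper80.Kl
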